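import Pool.Agent.H83.WhileProg

/-!
Counter machines, obtained by flattening while programs, and the fact that every recursively
enumerable set of natural numbers is the halting set of a counter machine.
-/

namespace Pool.Agent.H83

open Function

/-! ### Small-step semantics of while programs -/

/-- One step on a control stack and a register file; the empty stack is halted. -/
def sstep : List Prog × Regs → List Prog × Regs
  | ([], s) => ([], s)
  | (.skip :: K, s) => (K, s)
  | (.inc r :: K, s) => (K, update s r (s r + 1))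
  | (.seq p q :: K, s) => (p :: q :: K, s)
  | (.loop r p :: K, s) => if s r = 0 then (K, s) else (p :: .loop r p :: K, update s r (s r - 1))

theorem Big.steps {p : Prog} {s s' : Regs} (h : Big p s s') (K : List Prog) :
    ∃ i, sstep^[i] (p :: K, s) = (K, s') := by
  induction h generalizing K with
  | skip s => exact ⟨1, rfl⟩
  | inc r s => exact ⟨1, rfl⟩
  | @seq p q s s' s'' _ _ ih1 ih2 =>
    obtain ⟨i, hi⟩ := ih1 (q :: K)
    obtain ⟨j, hj⟩ := ih2 K
    refine ⟨j + i + 1, ?_⟩
    rw [iterate_succ_apply]
    show sstep^[j + i] (p :: q :: K, s) = _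
    rw [iterate_add_apply, hi, hj]
  | @loopZ r p s h0 => exact ⟨1, by simp [sstep, h0]⟩
  | @loopS r p s s' s'' m h0 _ _ ih1 ih2 =>
    obtain ⟨i, hi⟩ := ih1 (.loop r p :: K)
    obtain ⟨j, hj⟩ := ih2 K
    refine ⟨j + i + 1, ?_⟩
    rw [iterate_succ_apply]
    have : sstep (.loop r p :: K, s) = (p :: .loop r p :: K, update s r m) := by
      simp [sstep, h0]
    rw [this, iterate_add_apply, hi, hj]

theorem sstep_nil (i : ℕ) (s : Regs) : sstep^[i] ([], s) = ([], s) := by
  induction i with
  | zero => rfl
  | succ i ih => rw [iterate_succ_apply]; exact ih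

theorem sstep_nil_of_le {c : List Prog × Regs} {i j : ℕ} (hij : i ≤ j)
    (h : (sstep^[i] c).1 = []) : (sstep^[j] c).1 = [] := by
  obtain ⟨k, rfl⟩ := Nat.exists_eq_add_of_le hij
  rw [Nat.add_comm, iterate_add_apply]
  have : sstep^[i] c = ([], (sstep^[i] c).2) := Prod.ext h rfl
  rw [this, sstep_nil]

/-- The start register file for input `n`. -/
def init (n : ℕ) : Regs := update (fun _ => 0) 0 n

/-- Every recursively enumerable set of natural numbers is the halting set of a while program. -/
theorem exists_prog {q : ℕ → Prop} (hq : REPred q) :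
    ∃ P : Prog, ∀ n, q n ↔ ∃ i, (sstep^[i] ([P], init n)).1 = [] := by
  -- a primitive recursive matrix
  obtain ⟨f, hf, hfq⟩ : ∃ f : List.Vector ℕ 2 → ℕ, Nat.Primrec' f ∧
      ∀ n, q n ↔ ∃ k, f (n ::ᵥ k ::ᵥ List.Vector.nil) = 0 := by
    have hp : Partrec fun n : ℕ => Part.assert (q n) fun _ => Part.some (0 : ℕ) := by
      have h0 : Computable₂ (fun (_ : ℕ) (_ : Unit) => (0 : ℕ)) := (Computable.const 0).to₂
      refine (Partrec.map hq h0).of_eq fun n => ?_
      ext x
      simp only [Part.mem_map_iff, Part.mem_assert_iff, Part.mem_some_iff]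
      constructor
      · rintro ⟨a, ⟨h, -⟩, rfl⟩; exact ⟨h, rfl⟩
      · rintro ⟨h, rfl⟩; exact ⟨(), ⟨h, trivial⟩, rfl⟩
    obtain ⟨c, hc⟩ := Nat.Partrec.Code.exists_code.1 (Partrec.nat_iff.1 hp)
    have hdom : ∀ n, q n ↔ ∃ k, (Nat.Partrec.Code.evaln k c n).isSome := by
      intro n
      have h1 : q n ↔ (c.eval n).Dom := by
        rw [hc]
        constructor
        · intro h; exact ⟨h, trivial⟩
        · rintro ⟨h, _⟩; exact h
      rw [h1, Part.dom_iff_mem]
      constructor
      · rintro ⟨y, hy⟩
        obtain ⟨k, hk⟩ := Nat.Partrec.Code.evaln_complete.1 hy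
        exact ⟨k, by rw [Option.mem_def.1 hk]; rfl⟩
      · rintro ⟨k, hk⟩
        obtain ⟨y, hy⟩ := Option.isSome_iff_exists.1 hk
        exact ⟨y, Nat.Partrec.Code.evaln_sound (Option.mem_def.2 hy)⟩
    refine ⟨fun v => Nat.rec 1 (fun _ _ => 0)
      (Encodable.encode (Nat.Partrec.Code.evaln v.tail.head c v.head)), ?_, ?_⟩
    · refine Nat.Primrec'.of_prim ?_
      have h2 : Primrec fun v : List.Vector ℕ 2 =>
          Nat.Partrec.Code.evaln v.tail.head c v.head :=
        Nat.Partrec.Code.primrec_evaln.comp
          (((Primrec.vector_head.comp Primrec.vector_tail).pair (Primrec.const c)).pair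
            Primrec.vector_head)
      exact Primrec.nat_rec' (Primrec.encode.comp h2) (Primrec.const 1)
        ((Primrec.const 0).to₂)
    · intro n
      rw [hdom]
      refine exists_congr fun k => ?_
      simp only [List.Vector.head_cons, List.Vector.tail_cons]
      cases h : Nat.Partrec.Code.evaln k c n <;> simp
  obtain ⟨PF, hPF⟩ := computes_primrec' hf ![0, 1] 2 3
    (by intro i; fin_cases i <;> simp) (by omega) (by intro i; fin_cases i <;> simp)
  -- the search program
  set body : Prog := .seq (.inc 1) PF with hbody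
  refine ⟨.seq PF (.loop 2 body), fun n => ?_⟩
  set F : ℕ → ℕ := fun k => f (n ::ᵥ k ::ᵥ List.Vector.nil) with hF
  set st : ℕ → ℕ → Regs := fun k z r => if r = 0 then n else if r = 1 then k else
    if r = 2 then z else 0 with hst
  have hPFst : ∀ k z, Big PF (st k z) (st k (F k)) := by
    intro k z
    refine (hPF _ ?_).cast ?_
    · intro r hr
      simp only [hst]
      rw [if_neg (by omega), if_neg (by omega), if_neg (by omega)]
    · funext r
      by_cases h2 : r = 2
      · subst h2
        rw [update_self]
        simp only [hst, hF]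
        norm_num
        congr 1
      · rw [update_of_ne h2]
        simp only [hst, if_neg h2]
  have hinit : init n = st 0 0 := by
    funext r
    by_cases h : r = 0
    · subst h; simp [init, hst]
    · simp [init, hst, h]
  have hbodyst : ∀ k z, Big body (st k z) (st (k + 1) (F (k + 1))) := by
    intro k z
    refine Big.seq ((Big.inc 1 _).cast (t' := st (k + 1) z) ?_) (hPFst _ _)
    funext r
    by_cases h : r = 1
    · subst h; simp [hst]
    · rw [update_of_ne h]; simp [hst, h]
  have hstart : ∃ i, sstep^[i] ([Prog.seq PF (.loop 2 body)], init n) =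
      ([Prog.loop 2 body], st 0 (F 0)) := by
    obtain ⟨i, hi⟩ := (hPFst 0 0).steps [Prog.loop 2 body]
    refine ⟨i + 1, ?_⟩
    rw [iterate_succ_apply, hinit]
    exact hi
  obtain ⟨i₀, hi₀⟩ := hstart
  have hdec : ∀ k z, update (st k (z + 1)) 2 z = st k z := by
    intro k z
    funext r
    by_cases h : r = 2
    · subst h; simp [hst]
    · rw [update_of_ne h]; simp [hst, h]
  have hloop : ∀ k, F k ≠ 0 → ∃ i, sstep^[i + 1] ([Prog.loop 2 body], st k (F k)) =
      ([Prog.loop 2 body], st (k + 1) (F (k + 1))) := by
    intro k hk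
    obtain ⟨z, hz⟩ := Nat.exists_eq_succ_of_ne_zero hk
    obtain ⟨i, hi⟩ := (hbodyst k z).steps [Prog.loop 2 body]
    refine ⟨i, ?_⟩
    rw [iterate_succ_apply]
    have : sstep ([Prog.loop 2 body], st k (F k)) = (body :: [Prog.loop 2 body], st k z) := by
      have h2 : st k (F k) 2 = z + 1 := by simp [hst, hz]
      simp only [sstep, h2]
      rw [if_neg (by omega), hz, Nat.add_sub_cancel, hdec]
    rw [this, hi]
  rw [hfq]
  constructor
  · -- a zero exists: the program halts
    intro hex
    classical
    have hz : F (Nat.find hex) = 0 := Nat.find_spec hex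
    have hnz : ∀ k < Nat.find hex, F k ≠ 0 := fun k hk => Nat.find_min hex hk
    have hreach : ∀ k ≤ Nat.find hex, ∃ i, sstep^[i] ([Prog.seq PF (.loop 2 body)], init n) =
        ([Prog.loop 2 body], st k (F k)) := by
      intro k
      induction k with
      | zero => intro _; exact ⟨i₀, hi₀⟩
      | succ k ih =>
        intro hk
        obtain ⟨i, hi⟩ := ih (by omega)
        obtain ⟨j, hj⟩ := hloop k (hnz k (by omega))
        refine ⟨(j + 1) + i, ?_⟩
        rw [iterate_add_apply, hi, hj]
    obtain ⟨i, hi⟩ := hreach _ le_rfl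
    refine ⟨1 + i, ?_⟩
    rw [iterate_add_apply, hi, hz, iterate_one]
    simp [sstep, hst]
  · -- otherwise the program runs for ever
    rintro ⟨i, hi⟩
    by_contra hno
    push Not at hno
    have hnever : ∀ i k, (sstep^[i] ([Prog.loop 2 body], st k (F k))).1 ≠ [] := by
      intro i
      induction i using Nat.strong_induction_on with
      | _ i ih =>
        intro k hk
        obtain ⟨j, hj⟩ := hloop k (hno k)
        by_cases hij : i ≤ j + 1
        · have := sstep_nil_of_le hij hk
          rw [hj] at this
          simp at this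
        · obtain ⟨l, rfl⟩ := Nat.exists_eq_add_of_le (Nat.le_of_lt (not_le.1 hij))
          have hk' : (sstep^[l] ([Prog.loop 2 body], st (k + 1) (F (k + 1)))).1 = [] := by
            rw [← hj, ← iterate_add_apply, Nat.add_comm l]
            exact hk
          exact ih l (by omega) (k + 1) hk'
    by_cases hii : i ≤ i₀
    · have := sstep_nil_of_le hii hi
      rw [hi₀] at this
      simp at this
    · obtain ⟨l, rfl⟩ := Nat.exists_eq_add_of_le (Nat.le_of_lt (not_le.1 hii))
      refine hnever l 0 ?_
      rw [← hi₀, ← iterate_add_apply, Nat.add_comm l]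
      exact hi

/-! ### Counter machines -/

/-- Instructions of a counter machine: halt, jump, increment a counter, or test a counter for zero
and otherwise decrement it. -/
inductive Instr : Type
  | halt : Instr
  | goto (q : ℕ) : Instr
  | inc (r q : ℕ) : Instr
  | jz (r q₀ q₁ : ℕ) : Instr

/-- One step of a counter machine. -/
def mstep (ins : ℕ → Instr) (c : ℕ × Regs) : ℕ × Regs :=
  match ins c.1 with
  | .halt => c
  | .goto q => (q, c.2)
  | .inc r q => (q, update c.2 r (c.2 r + 1))
  | .jz r q₀ q₁ => if c.2 r = 0 then (q₀, c.2) else (q₁, update c.2 r (c.2 r - 1))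

/-- The targets of an instruction are below `N`. -/
def Instr.Below (N : ℕ) : Instr → Prop
  | .halt => True
  | .goto q => q < N
  | .inc _ q => q < N
  | .jz _ q₀ q₁ => q₀ < N ∧ q₁ < N

/-- The register of an instruction is below `R`. -/
def Instr.RegBelow (R : ℕ) : Instr → Prop
  | .halt => True
  | .goto _ => True
  | .inc r _ => r < R
  | .jz r _ _ => r < R

/-- The control stacks that occur while a program is executed. -/
def conts : Prog → List Prog → List (List Prog)
  | .skip, K => [.skip :: K]
  | .inc r, K => [.inc r :: K]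
  | .seq p q, K => (.seq p q :: K) :: (conts p (q :: K) ++ conts q K)
  | .loop r p, K => (.loop r p :: K) :: conts p (.loop r p :: K)

theorem self_mem_conts (p : Prog) (K : List Prog) : p :: K ∈ conts p K := by
  cases p <;> simp [conts]

/-- Control stacks reached in one step. -/
def succs : List Prog → List (List Prog)
  | [] => [[]]
  | .skip :: K => [K]
  | .inc _ :: K => [K]
  | .seq p q :: K => [p :: q :: K]
  | .loop r p :: K => [K, p :: .loop r p :: K]

theorem sstep_mem_succs (κ : List Prog) (s : Regs) : (sstep (κ, s)).1 ∈ succs κ := by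
  rcases κ with _ | ⟨p, K⟩
  · simp [sstep, succs]
  · cases p with
    | skip => simp [sstep, succs]
    | inc r => simp [sstep, succs]
    | seq p q => simp [sstep, succs]
    | loop r p =>
      simp only [sstep, succs]
      split_ifs <;> simp

theorem conts_closed (p : Prog) (K : List Prog) :
    ∀ κ ∈ conts p K, ∀ κ' ∈ succs κ, κ' ∈ conts p K ∨ κ' = K := by
  induction p generalizing K with
  | skip => simp [conts, succs]
  | inc r => simp [conts, succs]
  | seq p q ihp ihq =>
    intro κ hκ κ' hκ'
    simp only [conts, List.mem_cons, List.mem_append] at hκ ⊢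
    rcases hκ with rfl | hκ | hκ
    · simp only [succs, List.mem_singleton] at hκ'
      subst hκ'
      exact Or.inl (Or.inr (Or.inl (self_mem_conts _ _)))
    · rcases ihp _ κ hκ κ' hκ' with h | rfl
      · exact Or.inl (Or.inr (Or.inl h))
      · exact Or.inl (Or.inr (Or.inr (self_mem_conts _ _)))
    · rcases ihq _ κ hκ κ' hκ' with h | rfl
      · exact Or.inl (Or.inr (Or.inr h))
      · exact Or.inr rfl
  | loop r p ih =>
    intro κ hκ κ' hκ'
    simp only [conts, List.mem_cons] at hκ ⊢
    rcases hκ with rfl | hκ
    · simp only [succs, List.mem_cons, List.not_mem_nil, or_false] at hκ'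
      rcases hκ' with rfl | rfl
      · exact Or.inr rfl
      · exact Or.inl (Or.inr (self_mem_conts _ _))
    · rcases ih _ κ hκ κ' hκ' with h | rfl
      · exact Or.inl (Or.inr h)
      · exact Or.inl (Or.inl rfl)

/-- Every recursively enumerable set of natural numbers is the halting set of a counter machine
(with finitely many states `< N` and counters `< R`, started in state `q₀` with the input in counter
`0` and the other counters zero). -/
theorem exists_machine {p : ℕ → Prop} (hp : REPred p) :
    ∃ (ins : ℕ → Instr) (N R q₀ : ℕ), q₀ < N ∧ 0 < R ∧ (∀ q < N, (ins q).Below N) ∧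
      (∀ q < N, (ins q).RegBelow R) ∧
      ∀ n, p n ↔ ∃ i, ins ((mstep ins)^[i] (q₀, init n)).1 = .halt := by
  obtain ⟨P, hP⟩ := exists_prog hp
  set L : List (List Prog) := [] :: conts P [] with hL
  have hclosed : ∀ κ ∈ L, ∀ κ' ∈ succs κ, κ' ∈ L := by
    intro κ hκ κ' hκ'
    rcases List.mem_cons.1 hκ with rfl | hκ
    · simp only [succs, List.mem_singleton] at hκ'
      subst hκ'
      exact List.mem_cons_self
    · rcases conts_closed P [] κ hκ κ' hκ' with h | rfl
      · exact List.mem_cons_of_mem _ h
      · exact List.mem_cons_self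
  set tr : List Prog → Instr := fun κ => match κ with
    | [] => .halt
    | .skip :: K => .goto (L.idxOf K)
    | .inc r :: K => .inc r (L.idxOf K)
    | .seq p q :: K => .goto (L.idxOf (p :: q :: K))
    | .loop r p :: K => .jz r (L.idxOf K) (L.idxOf (p :: .loop r p :: K)) with htr
  set ins : ℕ → Instr := fun j => if h : j < L.length then tr L[j] else .halt with hins
  have hinsidx : ∀ κ ∈ L, ins (L.idxOf κ) = tr κ := by
    intro κ hκ
    have hlt : L.idxOf κ < L.length := List.idxOf_lt_length_iff.2 hκ
    simp only [hins, dif_pos hlt]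
    rw [List.getElem_idxOf]
  have htr_halt : ∀ κ, tr κ = .halt ↔ κ = [] := by
    intro κ
    rcases κ with _ | ⟨p, K⟩
    · simp [htr]
    · cases p <;> simp [htr]
  -- register bound
  obtain ⟨R, hR0, hR⟩ : ∃ R, 0 < R ∧ ∀ q < L.length, (ins q).RegBelow R := by
    set rg : Instr → ℕ := fun i => match i with
      | .halt => 0
      | .goto _ => 0
      | .inc r _ => r
      | .jz r _ _ => r with hrg
    refine ⟨(Finset.range L.length).sup (fun q => rg (ins q)) + 1, by omega, ?_⟩
    intro q hq
    have h1 : rg (ins q) ≤ (Finset.range L.length).sup (fun q => rg (ins q)) :=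
      Finset.le_sup (f := fun q => rg (ins q)) (Finset.mem_range.2 hq)
    revert h1
    generalize (Finset.range L.length).sup (fun q => rg (ins q)) = M
    intro h1
    cases h : ins q with
    | halt => trivial
    | goto q' => trivial
    | inc r q' => rw [h] at h1; show r < M + 1; simp only [hrg] at h1; omega
    | jz r q₀ q₁ => rw [h] at h1; show r < M + 1; simp only [hrg] at h1; omega
  have hPL : [P] ∈ L := List.mem_cons_of_mem _ (self_mem_conts P [])
  have hbelow : ∀ q < L.length, (ins q).Below L.length := by
    intro q hq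
    have hκ : L[q] ∈ L := List.getElem_mem hq
    have : ins q = tr L[q] := by simp only [hins, dif_pos hq]
    rw [this]
    have hc := hclosed _ hκ
    revert hc
    generalize L[q] = κ
    intro hc
    rcases κ with _ | ⟨p, K⟩
    · trivial
    · cases p with
      | skip => exact List.idxOf_lt_length_iff.2 (hc K (by simp [succs]))
      | inc r => exact List.idxOf_lt_length_iff.2 (hc K (by simp [succs]))
      | seq p q => exact List.idxOf_lt_length_iff.2 (hc _ (by simp [succs]))
      | loop r p => exact ⟨List.idxOf_lt_length_iff.2 (hc K (by simp [succs])),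
          List.idxOf_lt_length_iff.2 (hc _ (by simp [succs]))⟩
  -- simulation
  have hstep : ∀ κ ∈ L, ∀ s : Regs, mstep ins (L.idxOf κ, s) =
      (L.idxOf (sstep (κ, s)).1, (sstep (κ, s)).2) := by
    intro κ hκ s
    simp only [mstep, hinsidx κ hκ]
    rcases κ with _ | ⟨p, K⟩
    · rfl
    · cases p with
      | skip => rfl
      | inc r => rfl
      | seq p q => rfl
      | loop r p =>
        simp only [htr, sstep]
        split_ifs <;> rfl
  have hsim : ∀ (s : Regs) (i : ℕ), (sstep^[i] ([P], s)).1 ∈ L ∧
      (mstep ins)^[i] (L.idxOf [P], s) =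
        (L.idxOf (sstep^[i] ([P], s)).1, (sstep^[i] ([P], s)).2) := by
    intro s i
    induction i with
    | zero => exact ⟨hPL, rfl⟩
    | succ i ih =>
      rw [iterate_succ_apply', iterate_succ_apply', ih.2]
      refine ⟨hclosed _ ih.1 _ (sstep_mem_succs _ _), ?_⟩
      rw [hstep _ ih.1]
  refine ⟨ins, L.length, R, L.idxOf [P], List.idxOf_lt_length_iff.2 hPL, hR0, hbelow, hR, ?_⟩
  intro n
  rw [hP n]
  refine exists_congr fun i => ?_
  rw [(hsim (init n) i).2, hinsidx _ (hsim (init n) i).1, htr_halt]

end Pool.Agent.H83
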