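import Pool.Agent.H83.PALModel

/-!
Every co-r.e. set of natural numbers many-one reduces to the set of codes of finitely valid
formulas, as soon as there are two agents.
-/

namespace Pool.Agent.H83.PAL

variable {k : ℕ}

theorem group_code_injective :
    Function.Injective fun G : Finset (Fin k) => ∑ a ∈ G, 2 ^ (a : ℕ) := by
  intro G G' h
  have key : ∀ G : Finset (Fin k), ∑ a ∈ G, 2 ^ (a : ℕ) = ∑ i ∈ G.map Fin.valEmbedding, 2 ^ i := by
    intro G
    rw [Finset.sum_map]
    rfl
  simp only [key] at h
  have := Finset.geomSum_injective (le_refl 2) h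
  exact Finset.map_injective _ this

/-- Distinct formulas have distinct codes. -/
theorem Form.code_injective : Function.Injective (Form.code (k := k)) := by
  intro φ
  induction φ with
  | letter n =>
    intro ψ h
    cases ψ <;> simp only [Form.code, Nat.pair_eq_pair] at h <;> first | exact absurd h.1 (by decide) | rw [h.2]
  | neg φ ih =>
    intro ψ h
    cases ψ <;> simp only [Form.code, Nat.pair_eq_pair] at h <;> first | exact absurd h.1 (by decide) | rw [ih h.2]
  | and φ φ' ih ih' =>
    intro ψ h
    cases ψ <;> simp only [Form.code, Nat.pair_eq_pair] at h <;>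
      first | exact absurd h.1 (by decide) | rw [ih h.2.1, ih' h.2.2]
  | K a φ ih =>
    intro ψ h
    cases ψ <;> simp only [Form.code, Nat.pair_eq_pair] at h <;>
      first | exact absurd h.1 (by decide) | rw [ih h.2.2, Fin.ext h.2.1]
  | C G φ ih =>
    intro ψ h
    cases ψ <;> simp only [Form.code, Nat.pair_eq_pair] at h <;>
      first | exact absurd h.1 (by decide) | rw [ih h.2.2, Subtype.ext (group_code_injective h.2.1)]
  | ann φ φ' ih ih' =>
    intro ψ h
    cases ψ <;> simp only [Form.code, Nat.pair_eq_pair] at h <;>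
      first | exact absurd h.1 (by decide) | rw [ih h.2.1, ih' h.2.2]
  | iter φ φ' ih ih' =>
    intro ψ h
    cases ψ <;> simp only [Form.code, Nat.pair_eq_pair] at h <;>
      first | exact absurd h.1 (by decide) | rw [ih h.2.1, ih' h.2.2]

theorem finValidCodes_code (φ : Form k) : finValidCodes k φ.code ↔ FinValid φ := by
  constructor
  · rintro ⟨ψ, h, hψ⟩
    rwa [Form.code_injective h] at hψ
  · intro h
    exact ⟨φ, rfl, h⟩

theorem code_annPeel (a b : Fin k) (n : ℕ) (ψ : Form k) : (annPeel a b n ψ).code =
    Nat.rec (motive := fun _ => ℕ) ψ.code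
      (fun _ c => Nat.pair 5 (Nat.pair (peel a b).code c)) n := by
  induction n with
  | zero => rfl
  | succ n ih => simp only [annPeel, Form.code, ih]

theorem computable_haltForm (a b : Fin k) (ins : ℕ → Instr) (N R q₀ : ℕ) :
    Computable fun n => (Form.neg (haltForm a b ins N R q₀ n)).code := by
  refine Primrec.to_comp ?_
  simp only [haltForm, startForm, Form.code, code_annPeel]
  have h1 : Primrec fun n : ℕ => Nat.rec (motive := fun _ => ℕ)
      (Nat.pair 2 (Nat.pair (alive a b 0).code (zero a b 0).code))
      (fun _ c => Nat.pair 5 (Nat.pair (peel a b).code c)) n := by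
    refine Primrec.nat_rec' (α := ℕ) (β := ℕ) (f := fun n => n) (g := fun _ => _)
      (h := fun _ q => Nat.pair 5 (Nat.pair (peel a b).code q.2)) Primrec.id (Primrec.const _) ?_
    exact (Primrec₂.natPair.comp (Primrec.const 5)
      (Primrec₂.natPair.comp (Primrec.const (peel a b).code)
        (Primrec.snd.comp Primrec.snd))).to₂
  have h2 : ∀ c : ℕ, ∀ f : ℕ → ℕ, Primrec f → Primrec fun n => Nat.pair c (f n) :=
    fun c f hf => Primrec₂.natPair.comp (Primrec.const c) hf
  have h3 : ∀ c : ℕ, ∀ f : ℕ → ℕ, Primrec f → Primrec fun n => Nat.pair (f n) c :=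
    fun c f hf => Primrec₂.natPair.comp hf (Primrec.const c)
  exact h2 _ _ (h2 _ _ (h3 _ _ (h2 _ _ (h2 _ _ (h2 _ _ (h2 _ _ h1))))))

/-- Hardness: every co-r.e. set reduces to the set of codes of finitely valid formulas. -/
theorem hard (hk : 2 ≤ k) (p : ℕ → Prop) (hp : REPred fun n => ¬ p n) :
    ManyOneReducible p (finValidCodes k) := by
  classical
  obtain ⟨ins, N, R, q₀, hq₀, hR, hN, hreg, hspec⟩ := exists_machine hp
  set a : Fin k := ⟨0, by omega⟩ with ha
  set b : Fin k := ⟨1, by omega⟩ with hb
  have hab : a ≠ b := by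
    intro h
    have := congrArg Fin.val h
    simp [ha, hb] at this
  refine ⟨fun n => (Form.neg (haltForm a b ins N R q₀ n)).code,
    computable_haltForm a b ins N R q₀, fun n => ?_⟩
  rw [finValidCodes_code]
  constructor
  · intro hpn M hM w hsat
    rw [sat_iff_rsat_univ] at hsat
    exact (hspec n).2 (halts_of_sat hq₀ hR hN hreg hM hsat) hpn
  · intro hval
    by_contra hpn
    obtain ⟨M, hM, w, hw⟩ := sat_of_halts (k := k) hab hR hq₀ hN hreg ((hspec n).1 hpn)
    exact hval M hM w ((sat_iff_rsat_univ M _ w).2 hw)

/-- The set of codes of finitely valid formulas is not computable. -/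
theorem not_computable (hk : 2 ≤ k) : ¬ ComputablePred (finValidCodes k) := by
  intro h
  -- the complement of the halting problem, as a set of numbers
  have hre : REPred fun n : ℕ => ¬ ¬ ((Nat.Partrec.Code.eval (Denumerable.ofNat _ n)) 0).Dom := by
    have h1 := ComputablePred.halting_problem_re 0
    have h2 : REPred fun n : ℕ =>
        ((Nat.Partrec.Code.eval (Denumerable.ofNat Nat.Partrec.Code n)) 0).Dom :=
      h1.comp (Computable.ofNat _)
    exact h2.of_eq fun n => not_not.symm
  have hred := hard hk (fun n : ℕ => ¬ ((Nat.Partrec.Code.eval (Denumerable.ofNat _ n)) 0).Dom) hre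
  have hc := ComputablePred.computable_of_manyOneReducible hred h
  have hc2 : ComputablePred fun c : Nat.Partrec.Code => ¬ (c.eval 0).Dom := by
    have := ComputablePred.computable_of_manyOneReducible
      (p := fun c : Nat.Partrec.Code => ¬ (c.eval 0).Dom) (q := _)
      ⟨Encodable.encode, Computable.encode, fun c => by simp⟩ hc
    exact this
  exact ComputablePred.halting_problem 0 (by
    have := hc2.not
    exact this.of_eq fun c => not_not)

end Pool.Agent.H83.PAL
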