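import Pool.Agent.H83.PALEval
import Pool.Agent.H83.PALHard

/-!
Correctness of the evaluator.
-/

namespace Pool.Agent.H83.PAL

variable {k : ℕ}

/-- The model with code `c`. -/
def toModel (k : ℕ) (c : MC) (h : 0 < c.1) : EModel k where
  World := Fin c.1
  nonempty := ⟨⟨0, h⟩⟩
  rel := fun a x y => lab c a x = lab c a y
  equiv := fun _ => ⟨fun _ => rfl, fun h => h.symm, fun h h' => h.trans h'⟩
  val := fun n x => (x : ℕ) ∈ c.2.2.getD n []

/-- The set of worlds with code `s`. -/
def toSet (k : ℕ) (c : MC) (h : 0 < c.1) (s : List ℕ) : Set (toModel k c h).World :=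
  {y : Fin c.1 | (y : ℕ) ∈ s}

/-- `φ` is true at `x` relative to `s`. -/
def truth (c : MC) (h : 0 < c.1) (φ : Form k) (s : List ℕ) (x : ℕ) : Prop :=
  ∃ hx : x < c.1, rsat (toModel k c h) φ (toSet k c h s) (⟨x, hx⟩ : Fin c.1)

open Classical in
/-- The elements of `s` where `φ` is true. -/
noncomputable def filt (c : MC) (h : 0 < c.1) (φ : Form k) (s : List ℕ) : List ℕ :=
  s.filter (fun x => truth c h φ s x)

theorem mem_filt {c : MC} {h : 0 < c.1} {φ : Form k} {s : List ℕ} {x : ℕ} :
    x ∈ filt c h φ s ↔ x ∈ s ∧ truth c h φ s x := by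
  classical
  simp [filt]

theorem filt_sublist {c : MC} {h : 0 < c.1} {φ : Form k} {s : List ℕ} :
    (filt c h φ s).Sublist s := List.filter_sublist

theorem lt_of_mem_sub {c : MC} {s : List ℕ} (hs : s ∈ sub c) {x : ℕ} (hx : x ∈ s) : x < c.1 :=
  List.mem_range.1 ((List.mem_sublists'.1 hs).subset hx)

theorem sub_of_sublist {c : MC} {s t : List ℕ} (hs : s ∈ sub c) (h : t.Sublist s) : t ∈ sub c :=
  List.mem_sublists'.2 (h.trans (List.mem_sublists'.1 hs))

theorem nodup_of_sub {c : MC} {s : List ℕ} (hs : s ∈ sub c) : s.Nodup :=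
  (List.mem_sublists'.1 hs).nodup List.nodup_range

theorem toSet_filt {c : MC} {h : 0 < c.1} {φ : Form k} {s : List ℕ} :
    toSet k c h (filt c h φ s) = cut (toModel k c h) φ (toSet k c h s) := by
  ext x
  have hx : (x : Fin c.1).val < c.1 := x.2
  constructor
  · intro hm
    obtain ⟨h1, _, h2⟩ := mem_filt.1 (show (x : Fin c.1).val ∈ filt c h φ s from hm)
    exact ⟨h1, h2⟩
  · rintro ⟨h1, h2⟩
    exact mem_filt.2 ⟨h1, hx, h2⟩

theorem eq_filter_of_sublist {l s : List ℕ} (h : l.Sublist s) (hs : s.Nodup) :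
    l = s.filter (· ∈ l) := by
  induction h with
  | slnil => rfl
  | @cons l s a hl ih =>
    rw [List.nodup_cons] at hs
    have ha : a ∉ l := fun h => hs.1 (hl.subset h)
    rw [List.filter_cons_of_neg (by simpa using ha)]
    exact ih hs.2
  | @cons_cons l s a hl ih =>
    rw [List.nodup_cons] at hs
    rw [List.filter_cons_of_pos (by simp)]
    congr 1
    have h1 := ih hs.2
    conv_lhs => rw [h1]
    refine List.filter_congr fun x hx => ?_
    have : x ≠ a := fun h => hs.1 (h ▸ hx)
    simp [this]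

theorem sublist_ext {l l' s : List ℕ} (h : l.Sublist s) (h' : l'.Sublist s) (hs : s.Nodup)
    (hm : ∀ x, x ∈ l ↔ x ∈ l') : l = l' := by
  rw [eq_filter_of_sublist h hs, eq_filter_of_sublist h' hs]
  refine List.filter_congr fun x _ => ?_
  simp [hm]

theorem iterate_sublist {f : List ℕ → List ℕ} (hf : ∀ l, (f l).Sublist l) (n : ℕ) (l : List ℕ) :
    (f^[n] l).Sublist l := by
  induction n with
  | zero => exact List.Sublist.refl _
  | succ n ih => rw [Function.iterate_succ_apply']; exact (hf _).trans ih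

theorem iterate_fix {f : List ℕ → List ℕ} (hf : ∀ l, (f l).Sublist l) (n : ℕ) (l : List ℕ)
    (hl : l.length ≤ n) : f (f^[n] l) = f^[n] l := by
  induction n generalizing l with
  | zero =>
    have : l = [] := List.length_eq_zero_iff.1 (by omega)
    subst this
    exact List.sublist_nil.1 (hf [])
  | succ n ih =>
    by_cases h : f l = l
    · have : ∀ m, f^[m] l = l := by
        intro m
        induction m with
        | zero => rfl
        | succ m ihm => rw [Function.iterate_succ_apply, h, ihm]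
      rw [this, h]
    · rw [Function.iterate_succ_apply]
      refine ih _ ?_
      have h1 := (hf l).length_le
      have h2 : (f l).length ≠ l.length := fun h2 => h ((hf l).eq_of_length h2)
      omega

theorem iterate_stable {f : List ℕ → List ℕ} (hf : ∀ l, (f l).Sublist l) (s : List ℕ) (n : ℕ) :
    ∃ i ≤ s.length, f^[n] s = f^[i] s := by
  by_cases h : n ≤ s.length
  · exact ⟨n, h, rfl⟩
  · refine ⟨s.length, le_rfl, ?_⟩
    obtain ⟨m, rfl⟩ := Nat.exists_eq_add_of_le (Nat.le_of_lt (not_le.1 h))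
    have : ∀ m, f^[s.length + m] s = f^[s.length] s := by
      intro m
      induction m with
      | zero => rfl
      | succ m ih =>
        rw [← Nat.add_assoc, Function.iterate_succ_apply', ih]
        exact iterate_fix hf _ _ le_rfl
    exact this m

theorem lt_tag {t r : ℕ} (ht : 0 < t) : r < Nat.pair t r :=
  lt_of_le_of_lt (Nat.right_le_pair 0 r) (Nat.pair_lt_pair_left r ht)

theorem mem_memList {a g : ℕ} : (a, g) ∈ memList k ↔
    ∃ (b : Fin k) (G : Finset (Fin k)), b ∈ G ∧ (b : ℕ) = a ∧ gcode G = g := by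
  unfold memList
  rw [List.mem_filterMap]
  constructor
  · rintro ⟨⟨b, G⟩, -, h⟩
    by_cases hb : b ∈ G
    · simp only [hb, if_true, Option.some.injEq, Prod.mk.injEq] at h
      exact ⟨b, G, hb, h.1, h.2⟩
    · simp [hb] at h
  · rintro ⟨b, G, hb, h1, h2⟩
    exact ⟨(b, G), by simp, by simp [hb, h1, h2]⟩

theorem linked_iff {c : MC} {G : Finset (Fin k)} {x y : ℕ} :
    linked k c (gcode G) x y ↔ ∃ a ∈ G, lab c a x = lab c a y := by
  constructor
  · rintro ⟨a, -, h1, h2⟩
    obtain ⟨b, G', hb, rfl, hG⟩ := mem_memList.1 h1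
    have : G' = G := group_code_injective hG
    subst this
    exact ⟨b, hb, h2⟩
  · rintro ⟨a, ha, h⟩
    exact ⟨a, List.mem_range.2 a.2, mem_memList.2 ⟨a, G, ha, rfl, rfl⟩, h⟩

/-- The evaluator is correct. -/
theorem ext_code (c : MC) (h : 0 < c.1) (φ : Form k) : ∀ s ∈ sub c,
    ext k c φ.code s = filt c h φ s := by
  classical
  -- the evaluator as a function of the set
  have hfun : ∀ φ : Form k, (∀ s ∈ sub c, ext k c φ.code s = filt c h φ s) →
      (∀ l, (ext k c φ.code l).Sublist l) := by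
    intro φ hφ l
    by_cases hl : l ∈ sub c
    · rw [hφ l hl]; exact filt_sublist
    · rw [ext_eq, if_neg hl]; exact List.nil_sublist _
  have hiter : ∀ φ : Form k, (∀ s ∈ sub c, ext k c φ.code s = filt c h φ s) →
      ∀ s ∈ sub c, ∀ n, (ext k c φ.code)^[n] s ∈ sub c ∧
        toSet k c h ((ext k c φ.code)^[n] s) =
          (cut (toModel k c h) φ)^[n] (toSet k c h s) := by
    intro φ hφ s hs n
    induction n with
    | zero => exact ⟨hs, rfl⟩
    | succ n ih =>
      rw [Function.iterate_succ_apply', Function.iterate_succ_apply', hφ _ ih.1]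
      exact ⟨sub_of_sublist ih.1 filt_sublist, by rw [toSet_filt, ih.2]⟩
  induction φ with
  | letter n =>
    intro s hs
    rw [ext_eq, if_pos hs]
    simp only [stepE, Form.code, Nat.unpair_pair, if_true]
    refine List.filter_congr fun x hx => ?_
    rw [decide_eq_decide]
    exact ⟨fun hv => ⟨lt_of_mem_sub hs hx, hv⟩, fun ⟨_, hv⟩ => hv⟩
  | neg φ ih =>
    intro s hs
    have e1 : φ.code < Nat.pair 1 φ.code := lt_tag (by omega)
    rw [ext_eq, if_pos hs]
    simp only [stepE, Form.code, Nat.unpair_pair, if_pos e1, ih s hs]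
    norm_num
    refine List.filter_congr fun x hx => ?_
    rw [Bool.eq_iff_iff]
    simp only [Bool.not_eq_true', decide_eq_false_iff_not, decide_eq_true_eq]
    rw [mem_filt]
    constructor
    · intro h1
      refine ⟨lt_of_mem_sub hs hx, fun h2 => h1 ⟨hx, lt_of_mem_sub hs hx, h2⟩⟩
    · rintro ⟨_, h1⟩ ⟨_, _, h2⟩
      exact h1 h2
  | and φ ψ ih1 ih2 =>
    intro s hs
    have e0 : Nat.pair φ.code ψ.code < Nat.pair 2 (Nat.pair φ.code ψ.code) := lt_tag (by omega)
    have e1 : φ.code < Nat.pair 2 (Nat.pair φ.code ψ.code) :=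
      lt_of_le_of_lt (Nat.left_le_pair _ _) e0
    have e2 : ψ.code < Nat.pair 2 (Nat.pair φ.code ψ.code) :=
      lt_of_le_of_lt (Nat.right_le_pair _ _) e0
    rw [ext_eq, if_pos hs]
    simp only [stepE, Form.code, Nat.unpair_pair, if_pos e1, if_pos e2, ih1 s hs, ih2 s hs]
    norm_num
    refine List.filter_congr fun x hx => ?_
    rw [← Bool.decide_and, decide_eq_decide, mem_filt, mem_filt]
    constructor
    · rintro ⟨⟨_, hx', h1⟩, _, _, h2⟩
      exact ⟨hx', h1, h2⟩
    · rintro ⟨hx', h1, h2⟩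
      exact ⟨⟨hx, hx', h1⟩, hx, hx', h2⟩
  | K a φ ih =>
    intro s hs
    have e0 : Nat.pair a φ.code < Nat.pair 3 (Nat.pair a φ.code) := lt_tag (by omega)
    have e2 : φ.code < Nat.pair 3 (Nat.pair a φ.code) :=
      lt_of_le_of_lt (Nat.right_le_pair _ _) e0
    rw [ext_eq, if_pos hs]
    simp only [stepE, Form.code, Nat.unpair_pair, if_pos e2, ih s hs]
    norm_num
    refine List.filter_congr fun x hx => ?_
    rw [decide_eq_decide]
    constructor
    · intro h1
      refine ⟨lt_of_mem_sub hs hx, fun v hv hr => ?_⟩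
      obtain ⟨_, _, h2⟩ := mem_filt.1 (h1 (v : Fin c.1).val hv hr)
      exact h2
    · rintro ⟨hx', h1⟩ y hy hr
      exact mem_filt.2 ⟨hy, lt_of_mem_sub hs hy, h1 (⟨y, lt_of_mem_sub hs hy⟩ : Fin c.1) hy hr⟩
  | C G φ ih =>
    intro s hs
    have e0 : Nat.pair (∑ a ∈ G.1, 2 ^ (a : ℕ)) φ.code <
        Nat.pair 4 (Nat.pair (∑ a ∈ G.1, 2 ^ (a : ℕ)) φ.code) := lt_tag (by omega)
    have e2 : φ.code < Nat.pair 4 (Nat.pair (∑ a ∈ G.1, 2 ^ (a : ℕ)) φ.code) :=
      lt_of_le_of_lt (Nat.right_le_pair _ _) e0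
    rw [ext_eq, if_pos hs]
    simp only [stepE, Form.code, Nat.unpair_pair, if_pos e2, ih s hs]
    norm_num
    change (fun X : List ℕ => X.filter (fun x => decide (∀ y ∈ s,
      linked k c (gcode G.1) x y → y ∈ X)))^[s.length] (filt c h φ s) = _
    set f : List ℕ → List ℕ := fun X : List ℕ => X.filter (fun x => decide (∀ y ∈ s,
      linked k c (gcode G.1) x y → y ∈ X)) with hf
    have hfsub : ∀ l, (f l).Sublist l := fun l => List.filter_sublist
    have hmemf : ∀ X x, x ∈ f X ↔ x ∈ X ∧ ∀ y ∈ s, linked k c (gcode G.1) x y → y ∈ X := by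
      intro X x
      simp [hf]
    set R : (toModel k c h).World → (toModel k c h).World → Prop := fun x y =>
      x ∈ toSet k c h s ∧ y ∈ toSet k c h s ∧ ∃ a ∈ G.1, (toModel k c h).rel a x y with hR
    have hstep : ∀ (x y : ℕ) (hx : x < c.1) (hy : y < c.1), x ∈ s → y ∈ s →
        (linked k c (gcode G.1) x y ↔ R (⟨x, hx⟩ : Fin c.1) (⟨y, hy⟩ : Fin c.1)) := by
      intro x y hx hy hxs hys
      rw [linked_iff]
      exact ⟨fun ⟨a, ha, hab⟩ => ⟨hxs, hys, a, ha, hab⟩, fun ⟨_, _, a, ha, hab⟩ => ⟨a, ha, hab⟩⟩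
    have hfilt_s : (filt c h φ s).Sublist s := filt_sublist
    refine sublist_ext ((iterate_sublist hfsub _ _).trans hfilt_s) filt_sublist
      (nodup_of_sub hs) fun x => ?_
    constructor
    · intro hx
      have hxs : x ∈ s := ((iterate_sublist hfsub _ _).trans hfilt_s).subset hx
      refine mem_filt.2 ⟨hxs, lt_of_mem_sub hs hxs, ?_⟩
      -- the fixed point is closed under the relation
      have hfix := iterate_fix hfsub s.length (filt c h φ s) hfilt_s.length_le
      intro v hv
      have : (v : Fin c.1).val ∈ f^[s.length] (filt c h φ s) := by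
        induction hv with
        | single h1 =>
          rename_i z
          rw [← hfix] at hx
          exact ((hmemf _ _).1 hx).2 _ h1.2.1 ((hstep x (z : Fin c.1).val (lt_of_mem_sub hs hxs)
            (z : Fin c.1).2 hxs h1.2.1).2 h1)
        | tail _ h1 ih1 =>
          rename_i y z _
          rw [← hfix] at ih1
          exact ((hmemf _ _).1 ih1).2 _ h1.2.1 ((hstep (y : Fin c.1).val (z : Fin c.1).val
            (y : Fin c.1).2 (z : Fin c.1).2 h1.1 h1.2.1).2 h1)
      obtain ⟨_, _, h2⟩ := mem_filt.1 ((iterate_sublist hfsub _ _).subset this)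
      exact h2
    · intro hx
      have key : ∀ n, ∀ x, x ∈ filt c h (Form.C G φ) s → x ∈ f^[n] (filt c h φ s) := by
        intro n
        induction n with
        | zero =>
          intro x hx
          obtain ⟨hxs, hx', h1⟩ := mem_filt.1 hx
          refine mem_filt.2 ⟨hxs, hx', h1 _ ?_⟩
          obtain ⟨a, ha⟩ := G.2
          exact Relation.TransGen.single ⟨hxs, hxs, a, ha, rfl⟩
        | succ n ihn =>
          intro x hx
          rw [Function.iterate_succ_apply']
          refine (hmemf _ _).2 ⟨ihn x hx, fun y hys hlk => ihn y ?_⟩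
          obtain ⟨hxs, hx', h1⟩ := mem_filt.1 hx
          have hy' := lt_of_mem_sub hs hys
          refine mem_filt.2 ⟨hys, hy', fun v hv => h1 v ?_⟩
          exact Relation.TransGen.head ((hstep x y hx' hy' hxs hys).1 hlk) hv
      exact key _ x hx
  | ann φ ψ ih1 ih2 =>
    intro s hs
    have e0 : Nat.pair φ.code ψ.code < Nat.pair 5 (Nat.pair φ.code ψ.code) := lt_tag (by omega)
    have e1 : φ.code < Nat.pair 5 (Nat.pair φ.code ψ.code) :=
      lt_of_le_of_lt (Nat.left_le_pair _ _) e0
    have e2 : ψ.code < Nat.pair 5 (Nat.pair φ.code ψ.code) :=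
      lt_of_le_of_lt (Nat.right_le_pair _ _) e0
    have hs' : filt c h φ s ∈ sub c := sub_of_sublist hs filt_sublist
    rw [ext_eq, if_pos hs]
    simp only [stepE, Form.code, Nat.unpair_pair, if_pos e1, if_pos e2, ih1 s hs, ih2 _ hs']
    norm_num
    refine List.filter_congr fun x hx => ?_
    rw [Bool.eq_iff_iff]
    simp only [Bool.or_eq_true, Bool.not_eq_true', decide_eq_false_iff_not, decide_eq_true_eq]
    rw [← imp_iff_not_or]
    constructor
    · intro h1
      refine ⟨lt_of_mem_sub hs hx, fun h2 => ?_⟩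
      obtain ⟨_, _, h3⟩ := mem_filt.1 (h1 (mem_filt.2 ⟨hx, lt_of_mem_sub hs hx, h2⟩))
      rw [toSet_filt] at h3
      exact h3
    · rintro ⟨hx', h1⟩ h2
      obtain ⟨_, _, h3⟩ := mem_filt.1 h2
      refine mem_filt.2 ⟨h2, hx', ?_⟩
      rw [toSet_filt]
      exact h1 h3
  | iter φ ψ ih1 ih2 =>
    intro s hs
    have e0 : Nat.pair φ.code ψ.code < Nat.pair 6 (Nat.pair φ.code ψ.code) := lt_tag (by omega)
    have e1 : φ.code < Nat.pair 6 (Nat.pair φ.code ψ.code) :=
      lt_of_le_of_lt (Nat.left_le_pair _ _) e0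
    have e2 : ψ.code < Nat.pair 6 (Nat.pair φ.code ψ.code) :=
      lt_of_le_of_lt (Nat.right_le_pair _ _) e0
    rw [ext_eq, if_pos hs]
    simp only [stepE, Form.code, Nat.unpair_pair, if_pos e1, if_pos e2]
    norm_num
    change s.filter (fun x => decide (∀ i ≤ s.length, x ∈ (ext k c φ.code)^[i] s →
      x ∈ ext k c ψ.code ((ext k c φ.code)^[i] s))) = _
    refine List.filter_congr fun x hx => ?_
    rw [decide_eq_decide]
    have hmem : ∀ n, (x ∈ (ext k c φ.code)^[n] s ↔
        (⟨x, lt_of_mem_sub hs hx⟩ : Fin c.1) ∈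
          (cut (toModel k c h) φ)^[n] (toSet k c h s)) := by
      intro n
      rw [← (hiter φ ih1 s hs n).2]
      exact Iff.rfl
    have hval : ∀ n, x ∈ (ext k c φ.code)^[n] s →
        (x ∈ ext k c ψ.code ((ext k c φ.code)^[n] s) ↔
        rsat (toModel k c h) ψ ((cut (toModel k c h) φ)^[n] (toSet k c h s))
          (⟨x, lt_of_mem_sub hs hx⟩ : Fin c.1)) := by
      intro n hn
      rw [ih2 _ (hiter φ ih1 s hs n).1, mem_filt, ← (hiter φ ih1 s hs n).2]
      exact ⟨fun ⟨_, _, h1⟩ => h1, fun h1 => ⟨hn, lt_of_mem_sub hs hx, h1⟩⟩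
    constructor
    · intro h1
      refine ⟨lt_of_mem_sub hs hx, rsat_iter.2 fun n hn => ?_⟩
      obtain ⟨i, hi, hni⟩ := iterate_stable (hfun φ ih1) s n
      have hn' := (hmem n).2 hn
      rw [← hval n hn', hni]
      rw [hni] at hn'
      exact h1 i hi hn'
    · rintro ⟨_, h1⟩ i _ hi'
      exact (hval i hi').2 (rsat_iter.1 h1 i ((hmem i).1 hi'))

end Pool.Agent.H83.PAL
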