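import Mathlib

/-!
Epistemic models, the language of public announcement logic with common knowledge and iterated
announcements, its semantics, and the coding of formulas by natural numbers.
-/

namespace Pool.Agent.H83.PAL

/-- Formulas over the `k` agents `Fin k`: letters, negation, conjunction, knowledge `K a φ`, common
knowledge `C G φ` of a nonempty group `G`, announcement `ann φ ψ` (that is `[!φ]ψ`) and iterated
announcement `iter φ ψ` (that is `[(!φ)^*]ψ`). -/
inductive Form (k : ℕ) : Type
  | letter (n : ℕ) : Form k
  | neg (φ : Form k) : Form k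
  | and (φ ψ : Form k) : Form k
  | K (a : Fin k) (φ : Form k) : Form k
  | C (G : {G : Finset (Fin k) // G.Nonempty}) (φ : Form k) : Form k
  | ann (φ ψ : Form k) : Form k
  | iter (φ ψ : Form k) : Form k

/-- Epistemic models: a nonempty set of worlds, an equivalence relation for each agent and a
valuation of the letters. -/
structure EModel (k : ℕ) where
  /-- the worlds -/
  World : Type
  /-- there is a world -/
  nonempty : Nonempty World
  /-- the indistinguishability relations -/
  rel : Fin k → World → World → Prop
  /-- they are equivalence relations -/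
  equiv : ∀ a, Equivalence (rel a)
  /-- the valuation -/
  val : ℕ → World → Prop

variable {k : ℕ}

/-- The submodel on the worlds satisfying `P`, given that `w` is one of them. -/
def EModel.restrict (M : EModel k) (P : M.World → Prop) (w : M.World) (h : P w) : EModel k where
  World := {v : M.World // P v}
  nonempty := ⟨⟨w, h⟩⟩
  rel := fun a x y => M.rel a x.1 y.1
  equiv := fun a => ⟨fun x => (M.equiv a).refl x.1, fun h => (M.equiv a).symm h,
    fun h h' => (M.equiv a).trans h h'⟩
  val := fun n x => M.val n x.1

/-- The world `w` as a world of the submodel. -/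
def EModel.point (M : EModel k) (P : M.World → Prop) (w : M.World) (h : P w) :
    (M.restrict P w h).World := ⟨w, h⟩

/-- A property of pointed models. -/
abbrev PProp (k : ℕ) : Type 1 := (M : EModel k) → M.World → Prop

/-- `afterIter P Q n M w`: if `w` survives `n` successive restrictions of `M` to the worlds
satisfying `P`, then `Q` holds at `w` in the model so obtained. -/
def afterIter (P Q : PProp k) : ℕ → PProp k
  | 0 => Q
  | n + 1 => fun M w => ∀ h : P M w, afterIter P Q n (M.restrict (P M) w h) (M.point (P M) w h)

/-- Truth of a formula at a world of an epistemic model. -/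
def sat : Form k → PProp k
  | .letter n => fun M w => M.val n w
  | .neg φ => fun M w => ¬ sat φ M w
  | .and φ ψ => fun M w => sat φ M w ∧ sat ψ M w
  | .K a φ => fun M w => ∀ v, M.rel a w v → sat φ M v
  | .C G φ => fun M w =>
      ∀ v, Relation.TransGen (fun x y => ∃ a ∈ G.1, M.rel a x y) w v → sat φ M v
  | .ann φ ψ => fun M w =>
      ∀ h : sat φ M w, sat ψ (M.restrict (sat φ M) w h) (M.point (sat φ M) w h)
  | .iter φ ψ => fun M w => ∀ n, afterIter (sat φ) (sat ψ) n M w

/-- Truth at every world of every finite epistemic model. -/
def FinValid (φ : Form k) : Prop :=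
  ∀ M : EModel k, Finite M.World → ∀ w : M.World, sat φ M w

/-- The code of a formula. -/
def Form.code : Form k → ℕ
  | .letter n => Nat.pair 0 n
  | .neg φ => Nat.pair 1 φ.code
  | .and φ ψ => Nat.pair 2 (Nat.pair φ.code ψ.code)
  | .K a φ => Nat.pair 3 (Nat.pair a φ.code)
  | .C G φ => Nat.pair 4 (Nat.pair (∑ a ∈ G.1, 2 ^ (a : ℕ)) φ.code)
  | .ann φ ψ => Nat.pair 5 (Nat.pair φ.code ψ.code)
  | .iter φ ψ => Nat.pair 6 (Nat.pair φ.code ψ.code)

/-- The set of codes of finitely valid formulas over `k` agents. -/
def finValidCodes (k : ℕ) (m : ℕ) : Prop := ∃ φ : Form k, φ.code = m ∧ FinValid φ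

end Pool.Agent.H83.PAL
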