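import Pool.Agent.H83.PALRel
import Pool.Agent.H83.CounterMachine

/-!
Encoding of halting computations of counter machines in finite epistemic models.
-/

namespace Pool.Agent.H83.PAL

variable {k : ℕ}

/-! ### Derived connectives -/

/-- Implication. -/
def Form.imp (φ ψ : Form k) : Form k := .neg (.and φ (.neg ψ))

/-- The dual of knowledge. -/
def Form.dia (a : Fin k) (φ : Form k) : Form k := .neg (.K a (.neg φ))

/-- A true formula. -/
def Form.top : Form k := .neg (.and (.letter 0) (.neg (.letter 0)))

/-- Conjunction of a list. -/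
def Form.bigAnd : List (Form k) → Form k
  | [] => .top
  | φ :: l => .and φ (Form.bigAnd l)

variable {M : EModel k} {S : Set M.World} {w : M.World}

theorem rsat_letter {n : ℕ} : rsat M (.letter n) S w ↔ M.val n w := Iff.rfl

theorem rsat_neg {φ : Form k} : rsat M (.neg φ) S w ↔ ¬ rsat M φ S w := Iff.rfl

theorem rsat_and {φ ψ : Form k} : rsat M (.and φ ψ) S w ↔ rsat M φ S w ∧ rsat M ψ S w := Iff.rfl

theorem rsat_K {a : Fin k} {φ : Form k} :
    rsat M (.K a φ) S w ↔ ∀ v ∈ S, M.rel a w v → rsat M φ S v := Iff.rfl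

theorem rsat_imp {φ ψ : Form k} : rsat M (.imp φ ψ) S w ↔ (rsat M φ S w → rsat M ψ S w) := by
  show ¬ (rsat M φ S w ∧ ¬ rsat M ψ S w) ↔ _
  tauto

theorem rsat_dia {a : Fin k} {φ : Form k} :
    rsat M (.dia a φ) S w ↔ ∃ v ∈ S, M.rel a w v ∧ rsat M φ S v := by
  show (¬ ∀ v ∈ S, M.rel a w v → ¬ rsat M φ S v) ↔ _
  push Not
  rfl

theorem rsat_top : rsat M .top S w := by
  show ¬ (_ ∧ ¬ _)
  tauto

theorem rsat_bigAnd {l : List (Form k)} : rsat M (.bigAnd l) S w ↔ ∀ φ ∈ l, rsat M φ S w := by
  induction l with
  | nil => simpa [Form.bigAnd] using rsat_top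
  | cons φ l ih => simp [Form.bigAnd, rsat_and, ih]

/-! ### The formulas -/

/-- The letters used in the encoding. -/
inductive Ltr : Type
  | num | up | down | out | inn
  | reg (r : ℕ)
  | st (q : ℕ)

/-- Numbering of the letters. -/
def Ltr.idx : Ltr → ℕ
  | .num => 0
  | .up => 1
  | .down => 2
  | .out => 3
  | .inn => 4
  | .reg r => 5 + 2 * r
  | .st q => 6 + 2 * q

theorem Ltr.idx_injective : Function.Injective Ltr.idx := by
  intro x y h
  cases x <;> cases y <;> simp [Ltr.idx] at h ⊢ <;> omega

/-- The atomic formula of a letter. -/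
def Ltr.form (l : Ltr) : Form k := .letter l.idx

/-- What a step does to a register. -/
inductive Op : Type
  | eq | inc | dec

/-- The effect of an operation. -/
def Op.app : Op → ℕ → ℕ
  | .eq, n => n
  | .inc, n => n + 1
  | .dec, n => n - 1

section Formulas

variable (a b : Fin k)

/-- The announcement that removes the last number node. -/
def peel : Form k :=
  .imp Ltr.num.form (.dia a (.and Ltr.down.form (.dia b Ltr.up.form)))

/-- Register `r` is alive. -/
def alive (r : ℕ) : Form k := .dia a (.and (Ltr.reg r).form (.dia b Ltr.num.form))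

/-- At every next time node. -/
def boxN (ψ : Form k) : Form k := .K a (.imp Ltr.out.form (.K b (.imp Ltr.inn.form ψ)))

/-- There is a next time node. -/
def diaN : Form k := .dia a (.and Ltr.out.form (.dia b Ltr.inn.form))

/-- Comparison of the register `r` here and at the next time nodes. -/
def comp (r : ℕ) : Op → Form k
  | .eq => .and (.imp (alive a b r) (boxN a b (alive a b r)))
      (.imp (.neg (alive a b r)) (boxN a b (.neg (alive a b r))))
  | .inc => .and (.imp (alive a b r) (boxN a b (.ann (peel a b) (alive a b r))))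
      (.imp (.neg (alive a b r)) (boxN a b (.ann (peel a b) (.neg (alive a b r)))))
  | .dec => .and (.imp (.ann (peel a b) (alive a b r)) (boxN a b (alive a b r)))
      (.imp (.ann (peel a b) (.neg (alive a b r))) (boxN a b (.neg (alive a b r))))

/-- Register `r` is zero. -/
def zero (r : ℕ) : Form k := .ann (peel a b) (.neg (alive a b r))

/-- The next time nodes have state `q` and registers changed by `ops`; register `R` is the clock. -/
def moveTo (R q : ℕ) (ops : ℕ → Op) : Form k :=
  .and (boxN a b (Ltr.st q).form) (.iter (peel a b)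
    (.bigAnd ((List.range (R + 1)).map fun r => comp a b r (ops r))))

/-- The operations of a step that changes register `r` by `o` and ticks the clock `R`. -/
def opsAt (R r : ℕ) (o : Op) : ℕ → Op := fun x => if x = R then .inc else if x = r then o else .eq

/-- The operations of a step that only ticks the clock `R`. -/
def opsClock (R : ℕ) : ℕ → Op := fun x => if x = R then .inc else .eq

/-- What an instruction requires of a time node. -/
def instrForm (R : ℕ) : Instr → Form k
  | .halt => .top
  | .goto q => .and (diaN a b) (moveTo a b R q (opsClock R))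
  | .inc r q => .and (diaN a b) (moveTo a b R q (opsAt R r .inc))
  | .jz r q₀ q₁ => .and (diaN a b) (.and
      (.imp (zero a b r) (moveTo a b R q₀ (opsClock R)))
      (.imp (.neg (zero a b r)) (moveTo a b R q₁ (opsAt R r .dec))))

/-- The conditions on all worlds. -/
def locForm (ins : ℕ → Instr) (N R : ℕ) : Form k :=
  .and (.imp Ltr.out.form (.neg Ltr.num.form)) (.and (.imp Ltr.inn.form (.neg Ltr.num.form))
    (.bigAnd ((List.range N).map fun q => .imp (Ltr.st q).form (instrForm a b R (ins q)))))

/-- Iterated announcement of `peel`, exactly `n` times. -/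
def annPeel : ℕ → Form k → Form k
  | 0, ψ => ψ
  | n + 1, ψ => .ann (peel a b) (annPeel n ψ)

/-- The start condition for input `n`. -/
def startForm (R q₀ n : ℕ) : Form k :=
  .and (.and (.neg Ltr.num.form) (Ltr.st q₀).form)
    (.and (.bigAnd ((List.range (R + 1)).map fun r => if r = 0 then .top else
      .and (alive a b r) (zero a b r)))
      (annPeel a b n (.and (alive a b 0) (zero a b 0))))

/-- The formula that is finitely satisfiable iff the machine halts on input `n`. -/
def haltForm (ins : ℕ → Instr) (N R q₀ n : ℕ) : Form k :=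
  .and (startForm a b R q₀ n) (.C ⟨{a, b}, by simp⟩ (locForm a b ins N R))

end Formulas

/-! ### Stages -/

section Stages

variable (M) (a b : Fin k)

/-- The worlds left after `n` announcements of `peel`. -/
def stage (n : ℕ) : Set M.World := (cut M (peel a b))^[n] Set.univ

theorem stage_zero : stage M a b 0 = Set.univ := rfl

theorem stage_succ (n : ℕ) : stage M a b (n + 1) = cut M (peel a b) (stage M a b n) := by
  simp only [stage, Function.iterate_succ_apply']

theorem stage_add (n m : ℕ) : stage M a b (m + n) = (cut M (peel a b))^[m] (stage M a b n) := by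
  simp only [stage, Function.iterate_add_apply]

variable {M a b}

/-- Worlds that are not number worlds are never removed. -/
theorem mem_stage_of_not_num {w : M.World} (hw : ¬ M.val Ltr.num.idx w) (n : ℕ) :
    w ∈ stage M a b n := by
  induction n with
  | zero => trivial
  | succ n ih =>
    rw [stage_succ]
    exact ⟨ih, rsat_imp.2 fun h => absurd h hw⟩

theorem stage_anti (n : ℕ) : stage M a b (n + 1) ⊆ stage M a b n := by
  rw [stage_succ]
  exact fun v hv => hv.1

theorem rsat_annPeel_one {ψ : Form k} {w : M.World} (hw : ¬ M.val Ltr.num.idx w) (n : ℕ) :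
    rsat M (.ann (peel a b) ψ) (stage M a b n) w ↔ rsat M ψ (stage M a b (n + 1)) w := by
  rw [rsat_ann, stage_succ]
  constructor
  · intro h
    exact h (rsat_imp.2 fun h => absurd h hw)
  · intro h _
    exact h

theorem rsat_annPeel {ψ : Form k} {w : M.World} (hw : ¬ M.val Ltr.num.idx w) (m n : ℕ) :
    rsat M (annPeel a b m ψ) (stage M a b n) w ↔ rsat M ψ (stage M a b (m + n)) w := by
  induction m generalizing n with
  | zero => rw [Nat.zero_add]; rfl
  | succ m ih =>
    rw [annPeel, rsat_annPeel_one hw, ih, show m + (n + 1) = m + 1 + n by omega]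

theorem rsat_iterPeel {ψ : Form k} {w : M.World} (hw : ¬ M.val Ltr.num.idx w) :
    rsat M (.iter (peel a b) ψ) (stage M a b 0) w ↔ ∀ n, rsat M ψ (stage M a b n) w := by
  rw [rsat_iter]
  refine forall_congr' fun n => ?_
  have : (cut M (peel a b))^[n] (stage M a b 0) = stage M a b n := rfl
  rw [this]
  exact ⟨fun h => h (mem_stage_of_not_num hw n), fun h _ => h⟩

/-- `alive` is monotone. -/
theorem alive_anti {r : ℕ} {w : M.World} {m n : ℕ} (hmn : m ≤ n)
    (h : rsat M (alive a b r) (stage M a b n) w) : rsat M (alive a b r) (stage M a b m) w := by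
  induction n, hmn using Nat.le_induction with
  | base => exact h
  | succ n _ ih =>
    refine ih ?_
    obtain ⟨x, hx, hwx, h1, h2⟩ := rsat_dia.1 h
    obtain ⟨y, hy, hxy, h3⟩ := rsat_dia.1 h2
    exact rsat_dia.2 ⟨x, stage_anti n hx, hwx, h1, rsat_dia.2 ⟨y, stage_anti n hy, hxy, h3⟩⟩

end Stages

/-! ### Extracting the computation from a model -/

section Extract

variable (M) (a b : Fin k)

/-- The register `r` has value `x` at the world `v`. -/
def Val (v : M.World) (r x : ℕ) : Prop :=
  rsat M (alive a b r) (stage M a b x) v ∧ ¬ rsat M (alive a b r) (stage M a b (x + 1)) v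

variable {M a b}

theorem Val.alive_iff {v : M.World} {r x : ℕ} (h : Val M a b v r x) (n : ℕ) :
    rsat M (alive a b r) (stage M a b n) v ↔ n ≤ x := by
  constructor
  · intro h'
    by_contra hlt
    exact h.2 (alive_anti (by omega) h')
  · intro hle
    exact alive_anti hle h.1

theorem Val.unique {v : M.World} {r x y : ℕ} (h : Val M a b v r x) (h' : Val M a b v r y) :
    x = y := by
  have h1 := (h.alive_iff y).1 h'.1
  have h2 := (h'.alive_iff x).1 h.1
  omega

theorem rsat_boxN_stage {ψ : Form k} {v x y : M.World} {n : ℕ}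
    (h : rsat M (boxN a b ψ) (stage M a b n) v) (hvx : M.rel a v x)
    (hx : M.val Ltr.out.idx x) (hxn : ¬ M.val Ltr.num.idx x) (hxy : M.rel b x y)
    (hy : M.val Ltr.inn.idx y) (hyn : ¬ M.val Ltr.num.idx y) :
    rsat M ψ (stage M a b n) y := by
  have h1 := rsat_K.1 h x (mem_stage_of_not_num hxn n) hvx
  have h2 := rsat_K.1 (rsat_imp.1 h1 hx) y (mem_stage_of_not_num hyn n) hxy
  exact rsat_imp.1 h2 hy

theorem Val.zero_iff {v : M.World} (hv : ¬ M.val Ltr.num.idx v) {r x : ℕ}
    (h : Val M a b v r x) : rsat M (zero a b r) (stage M a b 0) v ↔ x = 0 := by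
  rw [zero, rsat_annPeel_one hv, rsat_neg, h.alive_iff]
  omega

/-- One step: values of the registers at a next time node. -/
theorem Val.next {v x y : M.World} (hvn : ¬ M.val Ltr.num.idx v) (hvx : M.rel a v x)
    (hx : M.val Ltr.out.idx x) (hxn : ¬ M.val Ltr.num.idx x) (hxy : M.rel b x y)
    (hy : M.val Ltr.inn.idx y) (hyn : ¬ M.val Ltr.num.idx y) {r c : ℕ} {o : Op}
    (h : Val M a b v r c) (hc : o = .dec → c ≠ 0)
    (hcomp : ∀ n, rsat M (comp a b r o) (stage M a b n) v) : Val M a b y r (o.app c) := by
  cases o with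
  | eq =>
    refine ⟨?_, ?_⟩
    · exact rsat_boxN_stage (rsat_imp.1 (hcomp c).1 h.1) hvx hx hxn hxy hy hyn
    · exact rsat_boxN_stage (rsat_imp.1 (hcomp (c + 1)).2 h.2) hvx hx hxn hxy hy hyn
  | inc =>
    refine ⟨?_, ?_⟩
    · have := rsat_boxN_stage (rsat_imp.1 (hcomp c).1 h.1) hvx hx hxn hxy hy hyn
      exact (rsat_annPeel_one hyn c).1 this
    · have := rsat_boxN_stage (rsat_imp.1 (hcomp (c + 1)).2 h.2) hvx hx hxn hxy hy hyn
      exact (rsat_annPeel_one hyn (c + 1)).1 this
  | dec =>
    obtain ⟨d, rfl⟩ := Nat.exists_eq_succ_of_ne_zero (hc rfl)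
    refine ⟨?_, ?_⟩
    · refine rsat_boxN_stage (rsat_imp.1 (hcomp d).1 ?_) hvx hx hxn hxy hy hyn
      exact (rsat_annPeel_one hvn d).2 h.1
    · refine rsat_boxN_stage (rsat_imp.1 (hcomp (d + 1)).2 ?_) hvx hx hxn hxy hy hyn
      exact (rsat_annPeel_one hvn (d + 1)).2 h.2

/-- Configuration with clock: register `R` holds the number of steps made. -/
def clocked (R : ℕ) (s : Regs) (i : ℕ) : ℕ → ℕ := fun r => if r = R then i else s r

theorem extract {ins : ℕ → Instr} {N R q₀ n : ℕ} (hq₀ : q₀ < N) (hR : 0 < R)
    (hN : ∀ q < N, (ins q).Below N) (hreg : ∀ q < N, (ins q).RegBelow R) {w : M.World}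
    (hw : rsat M (haltForm a b ins N R q₀ n) Set.univ w)
    (hrun : ∀ i, ins ((mstep ins)^[i] (q₀, init n)).1 ≠ .halt) (i : ℕ) :
    ∃ v : M.World, Relation.TransGen (fun x y => x ∈ (Set.univ : Set M.World) ∧
        y ∈ (Set.univ : Set M.World) ∧ ∃ c ∈ ({a, b} : Finset (Fin k)), M.rel c x y) w v ∧
      ¬ M.val Ltr.num.idx v ∧ ((mstep ins)^[i] (q₀, init n)).1 < N ∧
      M.val (Ltr.st ((mstep ins)^[i] (q₀, init n)).1).idx v ∧
      ∀ r ≤ R, Val M a b v r (clocked R ((mstep ins)^[i] (q₀, init n)).2 i r) := by
  obtain ⟨hstart, hC⟩ := rsat_and.1 hw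
  have hloc : ∀ v, Relation.TransGen (fun x y => x ∈ (Set.univ : Set M.World) ∧
        y ∈ (Set.univ : Set M.World) ∧ ∃ c ∈ ({a, b} : Finset (Fin k)), M.rel c x y) w v →
      rsat M (locForm a b ins N R) Set.univ v := hC
  induction i with
  | zero =>
    obtain ⟨⟨h1, h2⟩, h3, h4⟩ := hstart
    refine ⟨w, Relation.TransGen.single ⟨trivial, trivial, a, by simp, (M.equiv a).refl w⟩, h1,
      hq₀, h2, ?_⟩
    intro r hr
    by_cases h0 : r = 0
    · subst h0
      have h5 := (rsat_annPeel (a := a) (b := b) h1 n 0).1 h4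
      rw [Nat.add_zero] at h5
      have hc : clocked R ((mstep ins)^[0] (q₀, init n)).2 0 0 = n := by
        simp [clocked, init, show (0 : ℕ) ≠ R by omega]
      rw [hc]
      exact ⟨h5.1, (rsat_annPeel_one h1 n).1 h5.2⟩
    · have h5 := rsat_bigAnd.1 h3 (.and (alive a b r) (zero a b r)) (by
        refine List.mem_map.2 ⟨r, List.mem_range.2 (by omega), ?_⟩
        rw [if_neg h0])
      have hc : clocked R ((mstep ins)^[0] (q₀, init n)).2 0 r = 0 := by
        simp [clocked, init, h0]
      rw [hc]
      exact ⟨h5.1, (rsat_annPeel_one (a := a) (b := b) (n := 0) h1).1 h5.2⟩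
  | succ i ih =>
    obtain ⟨v, hv, hvn, hlt, hst, hval⟩ := ih
    have hne := hrun i
    rw [Function.iterate_succ_apply']
    generalize (mstep ins)^[i] (q₀, init n) = c at *
    obtain ⟨q, s⟩ := c
    simp only at hlt hst hval hne ⊢
    obtain ⟨hout, hinn, hins⟩ := hloc v hv
    have hI : rsat M (instrForm a b R (ins q)) Set.univ v := by
      have := rsat_bigAnd.1 hins (.imp (Ltr.st q).form (instrForm a b R (ins q)))
        (List.mem_map.2 ⟨q, List.mem_range.2 hlt, rfl⟩)
      exact rsat_imp.1 this hst
    have hBelow := hN q hlt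
    have hRB := hreg q hlt
    -- the next time node
    have hnext : rsat M (diaN a b) Set.univ v → ∃ x y, M.rel a v x ∧ M.val Ltr.out.idx x ∧
        ¬ M.val Ltr.num.idx x ∧ M.rel b x y ∧ M.val Ltr.inn.idx y ∧ ¬ M.val Ltr.num.idx y ∧
        Relation.TransGen (fun x y => x ∈ (Set.univ : Set M.World) ∧
          y ∈ (Set.univ : Set M.World) ∧ ∃ c ∈ ({a, b} : Finset (Fin k)), M.rel c x y) w y := by
      intro hd
      obtain ⟨x, -, hvx, hx, hd'⟩ := rsat_dia.1 hd
      obtain ⟨y, -, hxy, hy⟩ := rsat_dia.1 hd'
      have hwx := hv.tail (c := x) ⟨trivial, trivial, a, by simp, hvx⟩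
      have hwy := hwx.tail (c := y) ⟨trivial, trivial, b, by simp, hxy⟩
      refine ⟨x, y, hvx, hx, ?_, hxy, hy, ?_, hwy⟩
      · exact rsat_imp.1 (hloc x hwx).1 hx
      · exact rsat_imp.1 (hloc y hwy).2.1 hy
    -- effect of a move
    have hmove : ∀ (q' : ℕ) (ops : ℕ → Op), rsat M (diaN a b) Set.univ v →
        rsat M (moveTo a b R q' ops) Set.univ v →
        (∀ r ≤ R, ops r = .dec → clocked R s i r ≠ 0) → q' < N →
        ∃ y : M.World, Relation.TransGen (fun x y => x ∈ (Set.univ : Set M.World) ∧
          y ∈ (Set.univ : Set M.World) ∧ ∃ c ∈ ({a, b} : Finset (Fin k)), M.rel c x y) w y ∧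
        ¬ M.val Ltr.num.idx y ∧ q' < N ∧ M.val (Ltr.st q').idx y ∧
        ∀ r ≤ R, Val M a b y r ((ops r).app (clocked R s i r)) := by
      intro q' ops hd hm hdec hq'
      obtain ⟨x, y, hvx, hx, hxn, hxy, hy, hyn, hwy⟩ := hnext hd
      refine ⟨y, hwy, hyn, hq', ?_, ?_⟩
      · exact rsat_boxN_stage (a := a) (b := b) (n := 0) hm.1 hvx hx hxn hxy hy hyn
      · intro r hr
        refine Val.next hvn hvx hx hxn hxy hy hyn (hval r hr) (hdec r hr) fun n => ?_
        have := (rsat_iterPeel hvn).1 hm.2 n
        exact rsat_bigAnd.1 this _ (List.mem_map.2 ⟨r, List.mem_range.2 (by omega), rfl⟩)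
    cases hinsq : ins q with
    | halt => exact absurd hinsq hne
    | goto q' =>
      rw [hinsq] at hI hBelow hRB
      obtain ⟨y, h1, h2, h3, h4, h5⟩ := hmove q' (opsClock R) hI.1 hI.2 (by
        intro r _ h
        simp only [opsClock] at h
        split_ifs at h) hBelow
      simp only [mstep, hinsq]
      refine ⟨y, h1, h2, h3, h4, fun r hr => ?_⟩
      convert h5 r hr using 1
      by_cases h : r = R
      · simp [clocked, opsClock, h, Op.app]
      · simp [clocked, opsClock, h, Op.app]
    | inc r₀ q' =>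
      rw [hinsq] at hI hBelow hRB
      have hr₀ : r₀ < R := hRB
      obtain ⟨y, h1, h2, h3, h4, h5⟩ := hmove q' (opsAt R r₀ .inc) hI.1 hI.2 (by
        intro r _ h
        simp only [opsAt] at h
        split_ifs at h) hBelow
      simp only [mstep, hinsq]
      refine ⟨y, h1, h2, h3, h4, fun r hr => ?_⟩
      convert h5 r hr using 1
      by_cases h : r = R
      · simp [clocked, opsAt, h, Op.app]
      · by_cases h' : r = r₀
        · subst h'; simp [clocked, opsAt, h, Op.app]
        · simp [clocked, opsAt, h, h', Op.app]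
    | jz r₀ q₀' q₁' =>
      rw [hinsq] at hI hBelow hRB
      have hr₀ : r₀ < R := hRB
      have hv₀ := hval r₀ hr₀.le
      have hc₀ : clocked R s i r₀ = s r₀ := by simp [clocked, show r₀ ≠ R by omega]
      rw [hc₀] at hv₀
      by_cases hz : s r₀ = 0
      · have hZ : rsat M (zero a b r₀) Set.univ v := (hv₀.zero_iff hvn).2 hz
        obtain ⟨y, h1, h2, h3, h4, h5⟩ := hmove q₀' (opsClock R) hI.1
          (rsat_imp.1 hI.2.1 hZ) (by
          intro r _ h
          simp only [opsClock] at h
          split_ifs at h) hBelow.1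
        simp only [mstep, hinsq, if_pos hz]
        refine ⟨y, h1, h2, h3, h4, fun r hr => ?_⟩
        convert h5 r hr using 1
        by_cases h : r = R
        · simp [clocked, opsClock, h, Op.app]
        · simp [clocked, opsClock, h, Op.app]
      · have hZ : ¬ rsat M (zero a b r₀) Set.univ v := fun h => hz ((hv₀.zero_iff hvn).1 h)
        obtain ⟨y, h1, h2, h3, h4, h5⟩ := hmove q₁' (opsAt R r₀ .dec) hI.1
          (rsat_imp.1 hI.2.2 hZ) (by
          intro r _ h
          simp only [opsAt] at h
          split_ifs at h with h6 h7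
          subst h7
          rw [hc₀]
          exact hz) hBelow.2
        simp only [mstep, hinsq, if_neg hz]
        refine ⟨y, h1, h2, h3, h4, fun r hr => ?_⟩
        convert h5 r hr using 1
        by_cases h : r = R
        · simp [clocked, opsAt, h, Op.app]
        · by_cases h' : r = r₀
          · subst h'; simp [clocked, opsAt, h, Op.app]
          · simp [clocked, opsAt, h, h', Op.app]

/-- A finite model of the formula forces the machine to halt. -/
theorem halts_of_sat {ins : ℕ → Instr} {N R q₀ n : ℕ} (hq₀ : q₀ < N) (hR : 0 < R)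
    (hN : ∀ q < N, (ins q).Below N) (hreg : ∀ q < N, (ins q).RegBelow R) (hfin : Finite M.World)
    {w : M.World} (hw : rsat M (haltForm a b ins N R q₀ n) Set.univ w) :
    ∃ i, ins ((mstep ins)^[i] (q₀, init n)).1 = .halt := by
  by_contra hrun
  push Not at hrun
  choose v hv using fun i => extract hq₀ hR hN hreg hw hrun i
  have hinj : Function.Injective v := by
    intro i j hij
    have h1 := (hv i).2.2.2.2 R le_rfl
    have h2 := (hv j).2.2.2.2 R le_rfl
    rw [hij] at h1
    have := h1.unique h2
    simpa [clocked] using this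
  exact not_injective_infinite_finite v hinj

end Extract

end Pool.Agent.H83.PAL
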