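import Pool.Agent.H83.PALRel

/-!
A primitive recursive evaluator of formulas over coded finite epistemic models.
-/

namespace Pool.Agent.H83.PAL

variable {k : ℕ}

/-! ### The evaluator -/

/-- Codes of finite models: number of worlds, for each agent the list of labels of the worlds
(worlds with the same label are indistinguishable), for each letter the list of the worlds where it
is true. -/
abbrev MC : Type := ℕ × List (List ℕ) × List (List ℕ)

/-- Tables: lists of pairs of a set of worlds and its subset of worlds where a formula is true. -/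
abbrev Tab : Type := List (List ℕ × List ℕ)

/-- The label of the world `x` for the agent `a`. -/
def lab (c : MC) (a x : ℕ) : ℕ := (c.2.1.getD a []).getD x 0

/-- The code of a group. -/
def gcode (G : Finset (Fin k)) : ℕ := ∑ a ∈ G, 2 ^ (a : ℕ)

/-- All pairs of an agent and the code of a group containing it. -/
noncomputable def memList (k : ℕ) : List (ℕ × ℕ) :=
  (Finset.univ : Finset (Fin k × Finset (Fin k))).toList.filterMap fun p =>
    if p.1 ∈ p.2 then some ((p.1 : ℕ), gcode p.2) else none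

/-- The labels of `x` and `y` agree for some agent of the group with code `g`. -/
def linked (k : ℕ) (c : MC) (g x y : ℕ) : Prop :=
  ∃ a ∈ List.range k, (a, g) ∈ memList k ∧ lab c a x = lab c a y

/-- The sets of worlds of a model. -/
def sub (c : MC) : List (List ℕ) := (List.range c.1).sublists'

open Classical in
/-- One evaluation step, given an evaluator `e` for smaller codes. -/
noncomputable def stepE (k : ℕ) (c : MC) (e : ℕ → List ℕ → List ℕ) (m : ℕ) (s : List ℕ) : List ℕ :=
  if m.unpair.1 = 0 then s.filter (fun x => x ∈ c.2.2.getD m.unpair.2 [])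
  else if m.unpair.1 = 1 then s.filter (fun x => ¬ x ∈ e m.unpair.2 s)
  else if m.unpair.1 = 2 then
    s.filter (fun x => x ∈ e m.unpair.2.unpair.1 s ∧ x ∈ e m.unpair.2.unpair.2 s)
  else if m.unpair.1 = 3 then
    s.filter (fun x => ∀ y ∈ s, lab c m.unpair.2.unpair.1 x = lab c m.unpair.2.unpair.1 y →
      y ∈ e m.unpair.2.unpair.2 s)
  else if m.unpair.1 = 4 then
    (fun X : List ℕ => X.filter (fun x => ∀ y ∈ s,
      linked k c m.unpair.2.unpair.1 x y → y ∈ X))^[s.length] (e m.unpair.2.unpair.2 s)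
  else if m.unpair.1 = 5 then
    s.filter (fun x => x ∈ e m.unpair.2.unpair.1 s →
      x ∈ e m.unpair.2.unpair.2 (e m.unpair.2.unpair.1 s))
  else
    s.filter (fun x => ∀ i ∈ List.range (s.length + 1), x ∈ (e m.unpair.2.unpair.1)^[i] s →
      x ∈ e m.unpair.2.unpair.2 ((e m.unpair.2.unpair.1)^[i] s))

/-- The evaluator: the worlds of the set `s` where the formula with code `m` is true. -/
noncomputable def ext (k : ℕ) (c : MC) (m : ℕ) (s : List ℕ) : List ℕ :=
  if s ∈ sub c then stepE k c (fun i u => if _h : i < m then ext k c i u else []) m s else []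
termination_by m
decreasing_by assumption

theorem ext_eq (k : ℕ) (c : MC) (m : ℕ) (s : List ℕ) : ext k c m s =
    if s ∈ sub c then stepE k c (fun i u => if i < m then ext k c i u else []) m s else [] := by
  rw [ext]
  simp only [dite_eq_ite]

/-! ### The evaluator is primitive recursive -/

theorem primrec_filter {Γ : Type} [Primcodable Γ] {L : Γ → List ℕ} {R : ℕ → Γ → Prop}
    [DecidableRel R] (hL : Primrec L) (hR : PrimrecRel R) :
    Primrec fun γ => (L γ).filter (fun x => R x γ) :=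
  hR.listFilter.comp hL Primrec.id

theorem primrec_ball {Γ : Type} [Primcodable Γ] {L : Γ → List ℕ} {R : ℕ → Γ → Prop}
    (hL : Primrec L) (hR : PrimrecRel R) : PrimrecPred fun γ => ∀ x ∈ L γ, R x γ :=
  hR.forall_mem_list.comp hL Primrec.id

theorem primrec_bex {Γ : Type} [Primcodable Γ] {L : Γ → List ℕ} {R : ℕ → Γ → Prop}
    (hL : Primrec L) (hR : PrimrecRel R) : PrimrecPred fun γ => ∃ x ∈ L γ, R x γ :=
  hR.exists_mem_list.comp hL Primrec.id

theorem primrec_mem {Γ Δ : Type} [Primcodable Γ] [Primcodable Δ] {f : Γ → Δ} {L : Γ → List Δ}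
    (hf : Primrec f) (hL : Primrec L) : PrimrecPred fun γ => f γ ∈ L γ := by
  classical
  have h : PrimrecRel fun (l : List Δ) (x : Δ) => ∃ y ∈ l, y = x :=
    PrimrecRel.exists_mem_list (R := fun y x => y = x) Primrec.eq
  exact (h.comp hL hf).of_eq fun γ => by simp

theorem primrec_imp {Γ : Type} [Primcodable Γ] {p q : Γ → Prop} (hp : PrimrecPred p)
    (hq : PrimrecPred q) : PrimrecPred fun γ => p γ → q γ :=
  (hp.not.or hq).of_eq fun γ => by tauto

theorem primrec_lab : Primrec fun p : MC × ℕ × ℕ => lab p.1 p.2.1 p.2.2 := by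
  have h1 : Primrec fun p : MC × ℕ × ℕ => p.1.2.1.getD p.2.1 [] :=
    (Primrec.list_getD []).comp (Primrec.fst.comp (Primrec.snd.comp Primrec.fst))
      (Primrec.fst.comp Primrec.snd)
  exact (Primrec.list_getD 0).comp h1 (Primrec.snd.comp Primrec.snd)

theorem primrec_sub : Primrec sub := by
  have h : ∀ l : List ℕ, l.sublists' = l.foldr (fun a L => L ++ L.map (List.cons a)) [[]] := by
    intro l
    induction l with
    | nil => rfl
    | cons a l ih => rw [List.sublists'_cons, ih, List.foldr_cons]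
  have h2 : Primrec fun l : List ℕ => l.sublists' := by
    refine Primrec.of_eq (f := fun l : List ℕ =>
      l.foldr (fun a L => L ++ L.map (List.cons a)) [[]]) ?_ (fun l => (h l).symm)
    refine Primrec.list_foldr (f := fun l : List ℕ => l) (g := fun _ => [[]])
      (h := fun _ p => p.2 ++ p.2.map (List.cons p.1)) Primrec.id (Primrec.const _) ?_
    refine Primrec.list_append.comp (Primrec.snd.comp Primrec.snd) ?_
    exact Primrec.list_map (Primrec.snd.comp Primrec.snd)
      (Primrec.list_cons.comp (Primrec.fst.comp (Primrec.snd.comp Primrec.fst)) Primrec.snd)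
  exact h2.comp (Primrec.list_range.comp Primrec.fst)

/-- Lookup in a list of tables. -/
def look (prev : List Tab) (i : ℕ) (u : List ℕ) : List ℕ :=
  (@List.lookup (List ℕ) (List ℕ) instBEqOfDecidableEq u (prev.getD i [])).getD []

/-- Contexts: model, tables, code, set of worlds. -/
abbrev Ctx : Type := (MC × List Tab) × ℕ × List ℕ

section Cases

variable {Γ : Type} [Primcodable Γ]

theorem primrec_look {P : Γ → List Tab} {I : Γ → ℕ} {U : Γ → List ℕ} (hP : Primrec P)
    (hI : Primrec I) (hU : Primrec U) : Primrec fun γ => look (P γ) (I γ) (U γ) := by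
  have h1 : Primrec fun γ => (P γ).getD (I γ) [] := (Primrec.list_getD []).comp hP hI
  have h2 : Primrec fun γ =>
      @List.lookup (List ℕ) (List ℕ) instBEqOfDecidableEq (U γ) ((P γ).getD (I γ) []) :=
    Primrec.listLookup.comp hU h1
  exact Primrec.option_getD.comp h2 (Primrec.const [])

theorem primrec_look_iterate {P : Γ → List Tab} {I n : Γ → ℕ} {U : Γ → List ℕ} (hP : Primrec P)
    (hI : Primrec I) (hn : Primrec n) (hU : Primrec U) :
    Primrec fun γ => (look (P γ) (I γ))^[n γ] (U γ) :=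
  Primrec.nat_iterate (h := fun γ u => look (P γ) (I γ) u) hn hU
    (primrec_look (hP.comp Primrec.fst) (hI.comp Primrec.fst) Primrec.snd)

theorem case_letter {L S : Γ → List ℕ} (hL : Primrec L) (hS : Primrec S)
    (inst : ∀ (γ : Γ) (x : ℕ), Decidable (x ∈ L γ)) :
    Primrec fun γ => (S γ).filter (fun x => @decide (x ∈ L γ) (inst γ x)) := by
  classical
  have h : PrimrecRel fun x (γ : Γ) => x ∈ L γ :=
    primrec_mem (Γ := ℕ × Γ) Primrec.fst (hL.comp Primrec.snd)
  refine (primrec_filter hS h).of_eq fun γ => ?_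
  congr

theorem case_neg {P : Γ → List Tab} {I : Γ → ℕ} {S : Γ → List ℕ} (hP : Primrec P)
    (hI : Primrec I) (hS : Primrec S)
    (inst : ∀ (γ : Γ) (x : ℕ), Decidable (¬ x ∈ look (P γ) (I γ) (S γ))) :
    Primrec fun γ => (S γ).filter (fun x => @decide (¬ x ∈ look (P γ) (I γ) (S γ)) (inst γ x)) := by
  classical
  have h : PrimrecRel fun x (γ : Γ) => ¬ x ∈ look (P γ) (I γ) (S γ) :=
    (primrec_mem (Γ := ℕ × Γ) Primrec.fst ((primrec_look hP hI hS).comp Primrec.snd)).not
  refine (primrec_filter hS h).of_eq fun γ => ?_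
  congr

theorem case_and {P : Γ → List Tab} {I J : Γ → ℕ} {S : Γ → List ℕ} (hP : Primrec P)
    (hI : Primrec I) (hJ : Primrec J) (hS : Primrec S)
    (inst : ∀ (γ : Γ) (x : ℕ), Decidable (x ∈ look (P γ) (I γ) (S γ) ∧
      x ∈ look (P γ) (J γ) (S γ))) :
    Primrec fun γ => (S γ).filter (fun x => @decide (x ∈ look (P γ) (I γ) (S γ) ∧
      x ∈ look (P γ) (J γ) (S γ)) (inst γ x)) := by
  classical
  have h : PrimrecRel fun x (γ : Γ) => x ∈ look (P γ) (I γ) (S γ) ∧
      x ∈ look (P γ) (J γ) (S γ) :=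
    (primrec_mem (Γ := ℕ × Γ) Primrec.fst ((primrec_look hP hI hS).comp Primrec.snd)).and
    (primrec_mem (Γ := ℕ × Γ) Primrec.fst ((primrec_look hP hJ hS).comp Primrec.snd))
  refine (primrec_filter hS h).of_eq fun γ => ?_
  congr

theorem case_K {c : Γ → MC} {P : Γ → List Tab} {A I : Γ → ℕ} {S : Γ → List ℕ} (hc : Primrec c)
    (hP : Primrec P) (hA : Primrec A) (hI : Primrec I) (hS : Primrec S)
    (inst : ∀ (γ : Γ) (x : ℕ), Decidable (∀ y ∈ S γ, lab (c γ) (A γ) x = lab (c γ) (A γ) y →
      y ∈ look (P γ) (I γ) (S γ))) :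
    Primrec fun γ => (S γ).filter (fun x => @decide (∀ y ∈ S γ,
      lab (c γ) (A γ) x = lab (c γ) (A γ) y → y ∈ look (P γ) (I γ) (S γ)) (inst γ x)) := by
  classical
  have h : PrimrecRel fun x (γ : Γ) => ∀ y ∈ S γ, lab (c γ) (A γ) x = lab (c γ) (A γ) y →
      y ∈ look (P γ) (I γ) (S γ) := by
    refine primrec_ball (Γ := ℕ × Γ) (hS.comp Primrec.snd)
      (R := fun y p => lab (c p.2) (A p.2) p.1 = lab (c p.2) (A p.2) y →
        y ∈ look (P p.2) (I p.2) (S p.2)) ?_
    have g1 : Primrec fun q : ℕ × ℕ × Γ => q.1 := Primrec.fst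
    have g2 : Primrec fun q : ℕ × ℕ × Γ => q.2.1 := Primrec.fst.comp Primrec.snd
    have g3 : Primrec fun q : ℕ × ℕ × Γ => q.2.2 := Primrec.snd.comp Primrec.snd
    refine primrec_imp (Γ := ℕ × ℕ × Γ) ?_ ?_
    · exact Primrec.eq.comp
        (primrec_lab.comp ((hc.comp g3).pair ((hA.comp g3).pair g2)))
        (primrec_lab.comp ((hc.comp g3).pair ((hA.comp g3).pair g1)))
    · exact primrec_mem g1 (primrec_look (hP.comp g3) (hI.comp g3) (hS.comp g3))
  refine (primrec_filter hS h).of_eq fun γ => ?_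
  congr

theorem primrec_linked (k : ℕ) :
    PrimrecPred fun p : MC × ℕ × ℕ × ℕ => linked k p.1 p.2.1 p.2.2.1 p.2.2.2 := by
  unfold linked
  generalize memList k = ML
  generalize List.range k = RL
  have d0 : Primrec fun q : ℕ × MC × ℕ × ℕ × ℕ => q.1 := Primrec.fst
  have d1 : Primrec fun q : ℕ × MC × ℕ × ℕ × ℕ => q.2.1 := Primrec.fst.comp Primrec.snd
  have d2 : Primrec fun q : ℕ × MC × ℕ × ℕ × ℕ => q.2.2.1 :=
    Primrec.fst.comp (Primrec.snd.comp Primrec.snd)
  have d3 : Primrec fun q : ℕ × MC × ℕ × ℕ × ℕ => q.2.2.2.1 :=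
    Primrec.fst.comp (Primrec.snd.comp (Primrec.snd.comp Primrec.snd))
  have d4 : Primrec fun q : ℕ × MC × ℕ × ℕ × ℕ => q.2.2.2.2 :=
    Primrec.snd.comp (Primrec.snd.comp (Primrec.snd.comp Primrec.snd))
  have h1 : Primrec fun q : ℕ × MC × ℕ × ℕ × ℕ => lab q.2.1 q.1 q.2.2.2.1 :=
    primrec_lab.comp (g := fun q : ℕ × MC × ℕ × ℕ × ℕ => (q.2.1, q.1, q.2.2.2.1))
      (d1.pair (d0.pair d3))
  have h2 : Primrec fun q : ℕ × MC × ℕ × ℕ × ℕ => lab q.2.1 q.1 q.2.2.2.2 :=
    primrec_lab.comp (g := fun q : ℕ × MC × ℕ × ℕ × ℕ => (q.2.1, q.1, q.2.2.2.2))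
      (d1.pair (d0.pair d4))
  have h3 : PrimrecPred fun q : ℕ × MC × ℕ × ℕ × ℕ =>
      lab q.2.1 q.1 q.2.2.2.1 = lab q.2.1 q.1 q.2.2.2.2 := Primrec.eq.comp h1 h2
  have h4 : PrimrecPred fun q : ℕ × MC × ℕ × ℕ × ℕ => (q.1, q.2.2.1) ∈ ML :=
    primrec_mem (Γ := ℕ × MC × ℕ × ℕ × ℕ) (f := fun q => (q.1, q.2.2.1))
      (L := fun _ => ML) (d0.pair d2) (Primrec.const ML)
  have h5 : PrimrecRel fun (a : ℕ) (p : MC × ℕ × ℕ × ℕ) => (a, p.2.1) ∈ ML ∧
    lab p.1 a p.2.2.1 = lab p.1 a p.2.2.2 := h4.and h3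
  exact primrec_bex (Γ := MC × ℕ × ℕ × ℕ) (L := fun _ => RL) (Primrec.const RL) h5

theorem case_C (k : ℕ) {c : Γ → MC} {G : Γ → ℕ} {S X : Γ → List ℕ} (hc : Primrec c)
    (hG : Primrec G) (hS : Primrec S) (hX : Primrec X)
    (inst : ∀ (γ : Γ) (X : List ℕ) (x : ℕ), Decidable (∀ y ∈ S γ,
      linked k (c γ) (G γ) x y → y ∈ X)) :
    Primrec fun γ => (fun X : List ℕ => X.filter (fun x => @decide (∀ y ∈ S γ,
      linked k (c γ) (G γ) x y → y ∈ X) (inst γ X x)))^[(S γ).length] (X γ) := by
  classical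
  have h : PrimrecRel fun x (p : Γ × List ℕ) => ∀ y ∈ S p.1,
      linked k (c p.1) (G p.1) x y → y ∈ p.2 := by
    refine primrec_ball (Γ := ℕ × (Γ × List ℕ)) (L := fun p => S p.2.1)
      (hS.comp (Primrec.fst.comp Primrec.snd)) (R := fun y p =>
        linked k (c p.2.1) (G p.2.1) p.1 y → y ∈ p.2.2) ?_
    have e0 : Primrec fun q : ℕ × (ℕ × (Γ × List ℕ)) => q.1 := Primrec.fst
    have e1 : Primrec fun q : ℕ × (ℕ × (Γ × List ℕ)) => q.2.1 := Primrec.fst.comp Primrec.snd
    have e2 : Primrec fun q : ℕ × (ℕ × (Γ × List ℕ)) => q.2.2.1 :=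
      Primrec.fst.comp (Primrec.snd.comp Primrec.snd)
    have e3 : Primrec fun q : ℕ × (ℕ × (Γ × List ℕ)) => q.2.2.2 :=
      Primrec.snd.comp (Primrec.snd.comp Primrec.snd)
    refine primrec_imp (Γ := ℕ × (ℕ × (Γ × List ℕ))) ?_ ?_
    · exact (primrec_linked k).comp (f := fun q : ℕ × (ℕ × (Γ × List ℕ)) =>
        (c q.2.2.1, G q.2.2.1, q.2.1, q.1))
        ((hc.comp e2).pair ((hG.comp e2).pair (e1.pair e0)))
    · exact primrec_mem (Γ := ℕ × (ℕ × (Γ × List ℕ))) e0 e3
  have h' : Primrec₂ fun (γ : Γ) (X : List ℕ) => X.filter (fun x => decide (∀ y ∈ S γ,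
      linked k (c γ) (G γ) x y → y ∈ X)) :=
    primrec_filter (Γ := Γ × List ℕ) Primrec.snd h
  refine (Primrec.nat_iterate (Primrec.list_length.comp hS) hX h').of_eq fun γ => ?_
  congr

theorem case_ann {P : Γ → List Tab} {I J : Γ → ℕ} {S : Γ → List ℕ} (hP : Primrec P)
    (hI : Primrec I) (hJ : Primrec J) (hS : Primrec S)
    (inst : ∀ (γ : Γ) (x : ℕ), Decidable (x ∈ look (P γ) (I γ) (S γ) →
      x ∈ look (P γ) (J γ) (look (P γ) (I γ) (S γ)))) :
    Primrec fun γ => (S γ).filter (fun x => @decide (x ∈ look (P γ) (I γ) (S γ) →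
      x ∈ look (P γ) (J γ) (look (P γ) (I γ) (S γ))) (inst γ x)) := by
  classical
  have h : PrimrecRel fun x (γ : Γ) => x ∈ look (P γ) (I γ) (S γ) →
      x ∈ look (P γ) (J γ) (look (P γ) (I γ) (S γ)) :=
    primrec_imp (Γ := ℕ × Γ)
      (primrec_mem (Γ := ℕ × Γ) Primrec.fst ((primrec_look hP hI hS).comp Primrec.snd))
      (primrec_mem (Γ := ℕ × Γ) Primrec.fst
        ((primrec_look hP hJ (primrec_look hP hI hS)).comp Primrec.snd))
  refine (primrec_filter hS h).of_eq fun γ => ?_
  congr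

theorem case_iter {P : Γ → List Tab} {I J : Γ → ℕ} {S : Γ → List ℕ} (hP : Primrec P)
    (hI : Primrec I) (hJ : Primrec J) (hS : Primrec S)
    (inst : ∀ (γ : Γ) (x : ℕ), Decidable (∀ i ∈ List.range ((S γ).length + 1),
      x ∈ (look (P γ) (I γ))^[i] (S γ) →
      x ∈ look (P γ) (J γ) ((look (P γ) (I γ))^[i] (S γ)))) :
    Primrec fun γ => (S γ).filter (fun x => @decide (∀ i ∈ List.range ((S γ).length + 1),
      x ∈ (look (P γ) (I γ))^[i] (S γ) →
      x ∈ look (P γ) (J γ) ((look (P γ) (I γ))^[i] (S γ))) (inst γ x)) := by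
  classical
  have h : PrimrecRel fun x (γ : Γ) => ∀ i ∈ List.range ((S γ).length + 1),
      x ∈ (look (P γ) (I γ))^[i] (S γ) →
      x ∈ look (P γ) (J γ) ((look (P γ) (I γ))^[i] (S γ)) := by
    refine primrec_ball (Γ := ℕ × Γ) (L := fun p => List.range ((S p.2).length + 1))
      (Primrec.list_range.comp (Primrec.succ.comp (Primrec.list_length.comp
        (hS.comp Primrec.snd))))
      (R := fun i p => p.1 ∈ (look (P p.2) (I p.2))^[i] (S p.2) →
      p.1 ∈ look (P p.2) (J p.2) ((look (P p.2) (I p.2))^[i] (S p.2))) ?_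
    have g1 : Primrec fun q : ℕ × ℕ × Γ => q.1 := Primrec.fst
    have g2 : Primrec fun q : ℕ × ℕ × Γ => q.2.1 := Primrec.fst.comp Primrec.snd
    have g3 : Primrec fun q : ℕ × ℕ × Γ => q.2.2 := Primrec.snd.comp Primrec.snd
    have git : Primrec fun q : ℕ × ℕ × Γ => (look (P q.2.2) (I q.2.2))^[q.1] (S q.2.2) :=
      primrec_look_iterate (hP.comp g3) (hI.comp g3) g1 (hS.comp g3)
    refine primrec_imp (Γ := ℕ × ℕ × Γ) ?_ ?_
    · exact primrec_mem g2 git
    · exact primrec_mem g2 (primrec_look (hP.comp g3) (hJ.comp g3) git)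
  refine (primrec_filter hS h).of_eq fun γ => ?_
  congr

end Cases

theorem primrec_stepE (k : ℕ) : Primrec fun γ : Ctx =>
    stepE k γ.1.1 (look γ.1.2) γ.2.1 γ.2.2 := by
  classical
  -- projections of the context
  have hc : Primrec fun γ : Ctx => γ.1.1 := Primrec.fst.comp Primrec.fst
  have hP : Primrec fun γ : Ctx => γ.1.2 := Primrec.snd.comp Primrec.fst
  have hm : Primrec fun γ : Ctx => γ.2.1 := Primrec.fst.comp Primrec.snd
  have hs : Primrec fun γ : Ctx => γ.2.2 := Primrec.snd.comp Primrec.snd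
  have ht : Primrec fun γ : Ctx => γ.2.1.unpair.1 := Primrec.fst.comp (Primrec.unpair.comp hm)
  have hr : Primrec fun γ : Ctx => γ.2.1.unpair.2 := Primrec.snd.comp (Primrec.unpair.comp hm)
  have hr1 : Primrec fun γ : Ctx => γ.2.1.unpair.2.unpair.1 :=
    Primrec.fst.comp (Primrec.unpair.comp hr)
  have hr2 : Primrec fun γ : Ctx => γ.2.1.unpair.2.unpair.2 :=
    Primrec.snd.comp (Primrec.unpair.comp hr)
  have htag : ∀ i, PrimrecPred fun γ : Ctx => γ.2.1.unpair.1 = i :=
    fun i => Primrec.eq.comp ht (Primrec.const i)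
  have htv : Primrec fun γ : Ctx => γ.1.1.2.2.getD γ.2.1.unpair.2 [] :=
    (Primrec.list_getD []).comp (Primrec.snd.comp (Primrec.snd.comp hc)) hr
  unfold stepE
  refine Primrec.ite (htag 0) (case_letter htv hs _) (Primrec.ite (htag 1) (case_neg hP hr hs _)
    (Primrec.ite (htag 2) (case_and hP hr1 hr2 hs _) (Primrec.ite (htag 3)
    (case_K hc hP hr1 hr2 hs _) (Primrec.ite (htag 4)
    (case_C k hc hr1 hs (primrec_look hP hr2 hs) _) (Primrec.ite (htag 5)
    (case_ann hP hr1 hr2 hs _) (case_iter hP hr1 hr2 hs _))))))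

theorem lookup_map_pair (L : List (List ℕ)) (F : List ℕ → List ℕ) (u : List ℕ) :
    (@List.lookup (List ℕ) (List ℕ) instBEqOfDecidableEq u (L.map fun s => (s, F s))).getD [] =
      if u ∈ L then F u else [] := by
  induction L with
  | nil => simp
  | cons a L ih =>
    rw [List.map_cons]
    by_cases h : u = a
    · subst h; simp [List.lookup]
    · have h1 : (@BEq.beq _ instBEqOfDecidableEq u a) = false := by simpa using h
      simp only [List.lookup, h1]
      rw [ih]
      simp [h]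

/-- The evaluator, tabulated. -/
noncomputable def tab (k : ℕ) (c : MC) (m : ℕ) : Tab := (sub c).map fun s => (s, ext k c m s)

theorem primrec_tab (k : ℕ) : Primrec₂ (tab k) := by
  refine Primrec.nat_strong_rec (tab k) (g := fun c prev =>
    some ((sub c).map fun s => (s, stepE k c (look prev) prev.length s))) ?_ ?_
  · refine Primrec.option_some.comp ?_
    refine Primrec.list_map (α := MC × List Tab) (primrec_sub.comp Primrec.fst) ?_
    refine Primrec.pair Primrec.snd ?_
    exact (primrec_stepE k).comp (Primrec.fst.pair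
      ((Primrec.list_length.comp (Primrec.snd.comp Primrec.fst)).pair Primrec.snd))
  · intro c n
    have hlook : look ((List.range n).map (tab k c)) =
        fun i u => if i < n then ext k c i u else [] := by
      funext i u
      unfold look
      by_cases hi : i < n
      · have : ((List.range n).map (tab k c)).getD i [] = tab k c i := by
          simp [List.getD_eq_getElem?_getD, hi]
        rw [this, tab, lookup_map_pair, if_pos hi]
        by_cases hu : u ∈ sub c
        · rw [if_pos hu]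
        · rw [if_neg hu, ext_eq, if_neg hu]
      · have : ((List.range n).map (tab k c)).getD i [] = [] := by
          simp [List.getD_eq_getElem?_getD, hi]
        rw [this, if_neg hi]
        rfl
    simp only [List.length_map, List.length_range]
    rw [hlook]
    congr 1
    refine List.map_congr_left fun s hs => ?_
    rw [ext_eq, if_pos hs]

/-- The evaluator is primitive recursive. -/
theorem primrec_ext (k : ℕ) : Primrec fun p : MC × ℕ × List ℕ => ext k p.1 p.2.1 p.2.2 := by
  have h1 : Primrec fun p : MC × ℕ × List ℕ =>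
      (@List.lookup (List ℕ) (List ℕ) instBEqOfDecidableEq p.2.2 (tab k p.1 p.2.1)).getD [] := by
    refine Primrec.option_getD.comp (Primrec.listLookup.comp (Primrec.snd.comp Primrec.snd)
      ((primrec_tab k).comp Primrec.fst (Primrec.fst.comp Primrec.snd))) (Primrec.const [])
  refine h1.of_eq fun p => ?_
  rw [tab, lookup_map_pair]
  by_cases hu : p.2.2 ∈ sub p.1
  · rw [if_pos hu]
  · rw [if_neg hu, ext_eq, if_neg hu]

end Pool.Agent.H83.PAL
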