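import Pool.Agent.H83.PALEncode

/-!
The finite epistemic model of a halting computation.
-/

namespace Pool.Agent.H83.PAL

variable {k : ℕ}

/-- Worlds of the model of a computation of length `T` with registers `≤ R` and numbers `≤ B`. -/
inductive CW (T R B : ℕ) : Type
  | tin (i : Fin (T + 1))
  | tout (i : Fin (T + 1))
  | treg (i : Fin (T + 1)) (r : Fin (R + 1))
  | nreg (i : Fin (T + 1)) (r : Fin (R + 1))
  | nup (j : Fin (B + 1))
  | ndown (j : Fin (B + 1))

namespace CW

variable {T R B : ℕ}

/-- An injective code, for finiteness. -/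
def key : CW T R B → Fin 6 × (Fin (T + 1) × Fin (R + 1) × Fin (B + 1))
  | .tin i => (0, i, 0, 0)
  | .tout i => (1, i, 0, 0)
  | .treg i r => (2, i, r, 0)
  | .nreg i r => (3, i, r, 0)
  | .nup j => (4, 0, 0, j)
  | .ndown j => (5, 0, 0, j)

theorem key_injective : Function.Injective (key (T := T) (R := R) (B := B)) := by
  intro x y h
  cases x <;> cases y <;> simp [key] at h ⊢ <;> simp_all

instance : Finite (CW T R B) := Finite.of_injective _ key_injective

/-- The `a`-class of a world: a time node or a number node. -/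
def ka (sv : ℕ → ℕ → ℕ) : CW T R B → ℕ ⊕ ℕ
  | .tin i => .inl i
  | .tout i => .inl i
  | .treg i _ => .inl i
  | .nreg i r => .inr (sv i r)
  | .nup j => .inr j
  | .ndown j => .inr j

/-- The `b`-class of a world. -/
def kb : CW T R B → ℕ × ℕ × ℕ
  | .tin i => (0, i, 0)
  | .tout i => (0, i + 1, 0)
  | .treg i r => (1, i, r)
  | .nreg i r => (1, i, r)
  | .nup j => (2, j + 1, 0)
  | .ndown j => (2, j, 0)

/-- The letters true at a world. -/
def tru (st : ℕ → ℕ) : CW T R B → Ltr → Prop
  | .tin _, .inn => True
  | .tin i, .st q => q = st i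
  | .tout _, .out => True
  | .tout i, .st q => q = st i
  | .treg _ r, .reg r' => r' = r
  | .treg i _, .st q => q = st i
  | .nreg _ _, .num => True
  | .nup _, .num => True
  | .nup _, .up => True
  | .ndown _, .num => True
  | .ndown _, .down => True
  | _, _ => False

end CW

/-- The model of a computation: `st i` is the state and `sv i r` the value of register `r` at time
`i`. -/
abbrev compModel (a b : Fin k) (T R B : ℕ) (st : ℕ → ℕ) (sv : ℕ → ℕ → ℕ) : EModel k where
  World := CW T R B
  nonempty := ⟨.tin 0⟩
  rel := fun c x y => if c = a then CW.ka sv x = CW.ka sv y else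
    if c = b then CW.kb x = CW.kb y else x = y
  equiv := fun c => by
    by_cases h : c = a
    · subst h
      simp only [if_true]
      exact ⟨fun _ => rfl, fun h => h.symm, fun h h' => h.trans h'⟩
    · by_cases h' : c = b
      · subst h'
        simp only [if_neg h, if_true]
        exact ⟨fun _ => rfl, fun h => h.symm, fun h h' => h.trans h'⟩
      · simp only [if_neg h, if_neg h']
        exact ⟨fun _ => rfl, fun h => h.symm, fun h h' => h.trans h'⟩
  val := fun n x => ∃ l : Ltr, l.idx = n ∧ CW.tru st x l

section Model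

variable {a b : Fin k} {T R B : ℕ} {st : ℕ → ℕ} {sv : ℕ → ℕ → ℕ}

theorem val_idx (l : Ltr) (x : CW T R B) :
    (compModel a b T R B st sv).val l.idx x ↔ CW.tru st x l := by
  constructor
  · rintro ⟨l', hl, h⟩
    rw [Ltr.idx_injective hl] at h
    exact h
  · intro h
    exact ⟨l, rfl, h⟩

theorem rel_a (x y : CW T R B) :
    (compModel a b T R B st sv).rel a x y ↔ CW.ka sv x = CW.ka sv y := by
  simp

theorem rel_b (hab : a ≠ b) (x y : CW T R B) :
    (compModel a b T R B st sv).rel b x y ↔ CW.kb x = CW.kb y := by
  simp [hab.symm]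

theorem rsat_form (l : Ltr) (S : Set (CW T R B)) (x : CW T R B) :
    rsat (compModel a b T R B st sv) l.form S x ↔ CW.tru st x l := val_idx l x

/-- Which worlds are left at stage `n`. -/
def CW.left (sv : ℕ → ℕ → ℕ) (n : ℕ) : CW T R B → Prop
  | .tin _ => True
  | .tout _ => True
  | .treg _ _ => True
  | .nreg i r => n ≤ sv i r
  | .nup j => n ≤ j
  | .ndown j => n ≤ j

theorem stage_eq (hab : a ≠ b) (hB : ∀ (i : Fin (T + 1)) (r : Fin (R + 1)), sv i r ≤ B) (n : ℕ) :
    stage (compModel a b T R B st sv) a b n = {x : CW T R B | CW.left sv n x} := by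
  induction n with
  | zero =>
    ext x
    cases x <;> simp [stage_zero, CW.left]
  | succ n ih =>
    rw [stage_succ, ih]
    -- number nodes: survive iff index at least `n + 1`
    have hnum : ∀ (x : CW T R B) (j : ℕ), CW.ka sv x = .inr j → j ≤ B → n ≤ j →
        (rsat (compModel a b T R B st sv)
          (.dia a (.and Ltr.down.form (.dia b Ltr.up.form))) {x : CW T R B | CW.left sv n x} x ↔
          n + 1 ≤ j) := by
      intro x j hx hjB hnj
      rw [rsat_dia]
      constructor
      · rintro ⟨y, -, hxy, hd, hy⟩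
        rw [rel_a] at hxy
        have hd' := (rsat_form _ _ _).1 hd
        cases y with
        | ndown j' =>
          have hj' : j = j' := by
            rw [hx] at hxy
            simpa [CW.ka] using hxy
          obtain ⟨z, hz, hyz, hu⟩ := rsat_dia.1 hy
          rw [rel_b hab] at hyz
          have hu' := (rsat_form _ _ _).1 hu
          cases z with
          | nup j'' =>
            simp only [CW.kb, Prod.mk.injEq] at hyz
            have : n ≤ (j'' : ℕ) := hz
            omega
          | _ => simp [CW.tru] at hu'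
        | _ => simp [CW.tru] at hd'
      · intro hj
        refine ⟨.ndown ⟨j, by omega⟩, ?_, ?_, (rsat_form _ _ _).2 trivial, ?_⟩
        · show n ≤ j
          omega
        · rw [rel_a, hx]; rfl
        · refine rsat_dia.2 ⟨.nup ⟨j - 1, by omega⟩, ?_, ?_, (rsat_form _ _ _).2 trivial⟩
          · show n ≤ j - 1
            omega
          · rw [rel_b hab]
            refine Prod.ext rfl (Prod.ext ?_ rfl)
            show j = j - 1 + 1
            omega
    ext x
    show (CW.left sv n x ∧ rsat (compModel a b T R B st sv) (peel a b)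
      {x : CW T R B | CW.left sv n x} x) ↔ CW.left sv (n + 1) x
    rw [peel, rsat_imp, rsat_form]
    cases x with
    | tin i => simp [CW.left, CW.tru]
    | tout i => simp [CW.left, CW.tru]
    | treg i r => simp [CW.left, CW.tru]
    | nreg i r =>
      simp only [CW.left, CW.tru, true_imp_iff]
      constructor
      · rintro ⟨h1, h2⟩
        exact (hnum _ _ rfl (hB i r) h1).1 h2
      · intro h
        exact ⟨by omega, (hnum _ _ rfl (hB i r) (by omega)).2 h⟩
    | nup j =>
      simp only [CW.left, CW.tru, true_imp_iff]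
      constructor
      · rintro ⟨h1, h2⟩
        exact (hnum _ _ rfl (by omega) h1).1 h2
      · intro h
        exact ⟨by omega, (hnum _ _ rfl (by omega) (by omega)).2 h⟩
    | ndown j =>
      simp only [CW.left, CW.tru, true_imp_iff]
      constructor
      · rintro ⟨h1, h2⟩
        exact (hnum _ _ rfl (by omega) h1).1 h2
      · intro h
        exact ⟨by omega, (hnum _ _ rfl (by omega) (by omega)).2 h⟩

theorem alive_time (hab : a ≠ b) (hB : ∀ (i : Fin (T + 1)) (r : Fin (R + 1)), sv i r ≤ B)
    {x : CW T R B} {i : Fin (T + 1)} (hx : CW.ka sv x = .inl (i : ℕ)) {r : ℕ} (hr : r ≤ R) (n : ℕ) :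
    rsat (compModel a b T R B st sv) (alive a b r) (stage (compModel a b T R B st sv) a b n) x ↔
      n ≤ sv i r := by
  rw [stage_eq hab hB, alive, rsat_dia]
  constructor
  · rintro ⟨y, -, hxy, hd, hy⟩
    rw [rel_a] at hxy
    have hd' := (rsat_form _ _ _).1 hd
    cases y with
    | treg i' r' =>
      have hi' : i = i' := by
        rw [hx] at hxy
        simp only [CW.ka, Sum.inl.injEq] at hxy
        exact Fin.ext hxy
      have hr' : r = r' := hd'
      obtain ⟨z, hz, hyz, hu⟩ := rsat_dia.1 hy
      rw [rel_b hab] at hyz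
      have hu' := (rsat_form _ _ _).1 hu
      cases z with
      | nreg i'' r'' =>
        simp only [CW.kb, Prod.mk.injEq] at hyz
        have h1 : n ≤ sv i'' r'' := hz
        rw [← hyz.2.1, ← hyz.2.2, ← hi', ← hr'] at h1
        exact h1
      | nup j => simp [CW.kb] at hyz
      | ndown j => simp [CW.kb] at hyz
      | _ => simp [CW.tru] at hu'
    | _ => simp [CW.tru] at hd'
  · intro h
    refine ⟨.treg i ⟨r, by omega⟩, trivial, ?_, (rsat_form _ _ _).2 rfl, ?_⟩
    · rw [rel_a, hx]; rfl
    · refine rsat_dia.2 ⟨.nreg i ⟨r, by omega⟩, h, ?_, (rsat_form _ _ _).2 trivial⟩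
      rw [rel_b hab]; rfl

theorem boxN_time (hab : a ≠ b) {x : CW T R B} {i : Fin (T + 1)}
    (hx : CW.ka sv x = .inl (i : ℕ)) {ψ : Form k} {S : Set (CW T R B)}
    (h : ∀ i' : Fin (T + 1), (i' : ℕ) = i + 1 → rsat (compModel a b T R B st sv) ψ S (.tin i')) :
    rsat (compModel a b T R B st sv) (boxN a b ψ) S x := by
  refine rsat_K.2 fun y _ hxy => rsat_imp.2 fun hy => rsat_K.2 fun z _ hyz =>
    rsat_imp.2 fun hz => ?_
  rw [rel_a] at hxy
  rw [rel_b hab] at hyz
  have hy' := (rsat_form _ _ _).1 hy
  have hz' := (rsat_form _ _ _).1 hz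
  cases y with
  | tout i₁ =>
    cases z with
    | tin i₂ =>
      refine h i₂ ?_
      rw [hx] at hxy
      simp only [CW.ka, Sum.inl.injEq] at hxy
      simp only [CW.kb, Prod.mk.injEq] at hyz
      omega
    | _ => simp [CW.tru] at hz'
  | _ => simp [CW.tru] at hy'

theorem diaN_time (hab : a ≠ b) {x : CW T R B} {i : Fin (T + 1)}
    (hx : CW.ka sv x = .inl (i : ℕ)) (hi : (i : ℕ) < T) :
    rsat (compModel a b T R B st sv) (diaN a b) Set.univ x := by
  refine rsat_dia.2 ⟨.tout i, trivial, ?_, (rsat_form _ _ _).2 trivial, rsat_dia.2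
    ⟨.tin ⟨i + 1, by omega⟩, trivial, ?_, (rsat_form _ _ _).2 trivial⟩⟩
  · rw [rel_a, hx]; rfl
  · rw [rel_b hab]; rfl

theorem comp_time (hab : a ≠ b) (hB : ∀ (i : Fin (T + 1)) (r : Fin (R + 1)), sv i r ≤ B)
    {x : CW T R B} {i : Fin (T + 1)} (hx : CW.ka sv x = .inl (i : ℕ))
    (hxn : ¬ (compModel a b T R B st sv).val Ltr.num.idx x) {r : ℕ} (hr : r ≤ R)
    {o : Op} (ho : (i : ℕ) < T → sv (i + 1) r = o.app (sv i r)) (hdec : o = .dec → sv i r ≠ 0)
    (n : ℕ) :
    rsat (compModel a b T R B st sv) (comp a b r o) (stage (compModel a b T R B st sv) a b n) x := by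
  have hal := fun n => alive_time (st := st) (a := a) (b := b) hab hB hx hr n
  have hal' : ∀ (i' : Fin (T + 1)) n, rsat (compModel a b T R B st sv) (alive a b r)
      (stage (compModel a b T R B st sv) a b n) (.tin i') ↔ n ≤ sv i' r :=
    fun i' n => alive_time (x := .tin i') hab hB rfl hr n
  have hnn : ∀ i' : Fin (T + 1), ¬ (compModel a b T R B st sv).val Ltr.num.idx (.tin i') := by
    intro i' h
    exact (val_idx (a := a) (b := b) (st := st) (sv := sv) Ltr.num (.tin i')).1 h
  cases o with
  | eq =>
    refine ⟨rsat_imp.2 fun h => boxN_time hab hx fun i' hi' => ?_,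
      rsat_imp.2 fun h => boxN_time hab hx fun i' hi' => ?_⟩
    · rw [hal] at h
      rw [hal', hi', ho (by omega)]
      exact h
    · rw [rsat_neg, hal] at h
      rw [rsat_neg, hal', hi', ho (by omega)]
      exact h
  | inc =>
    refine ⟨rsat_imp.2 fun h => boxN_time hab hx fun i' hi' => ?_,
      rsat_imp.2 fun h => boxN_time hab hx fun i' hi' => ?_⟩
    · rw [hal] at h
      rw [rsat_annPeel_one (hnn i'), hal', hi', ho (by omega)]
      simp only [Op.app]
      omega
    · rw [rsat_neg, hal] at h
      rw [rsat_annPeel_one (hnn i'), rsat_neg, hal', hi', ho (by omega)]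
      simp only [Op.app]
      omega
  | dec =>
    have hd := hdec rfl
    refine ⟨rsat_imp.2 fun h => boxN_time hab hx fun i' hi' => ?_,
      rsat_imp.2 fun h => boxN_time hab hx fun i' hi' => ?_⟩
    · rw [rsat_annPeel_one hxn, hal] at h
      rw [hal', hi', ho (by omega)]
      simp only [Op.app]
      omega
    · rw [rsat_annPeel_one hxn, rsat_neg, hal] at h
      rw [rsat_neg, hal', hi', ho (by omega)]
      simp only [Op.app]
      omega

theorem moveTo_time (hab : a ≠ b) (hB : ∀ (i : Fin (T + 1)) (r : Fin (R + 1)), sv i r ≤ B)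
    {x : CW T R B} {i : Fin (T + 1)} (hx : CW.ka sv x = .inl (i : ℕ))
    (hxn : ¬ (compModel a b T R B st sv).val Ltr.num.idx x) {q : ℕ} {ops : ℕ → Op}
    (hq : (i : ℕ) < T → st (i + 1) = q)
    (ho : ∀ r ≤ R, (i : ℕ) < T → sv (i + 1) r = (ops r).app (sv i r))
    (hdec : ∀ r ≤ R, ops r = .dec → sv i r ≠ 0) :
    rsat (compModel a b T R B st sv) (moveTo a b R q ops) Set.univ x := by
  refine ⟨boxN_time hab hx fun i' hi' => ?_, ?_⟩
  · refine (rsat_form _ _ _).2 ?_
    show q = st i'
    rw [hi', hq (by omega)]
  · refine (rsat_iterPeel hxn).2 fun n => rsat_bigAnd.2 fun φ hφ => ?_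
    obtain ⟨r, hr, rfl⟩ := List.mem_map.1 hφ
    rw [List.mem_range] at hr
    exact comp_time hab hB hx hxn (by omega) (ho r (by omega)) (hdec r (by omega)) n

end Model

/-- A halting machine gives a finite model of the formula. -/
theorem sat_of_halts {a b : Fin k} (hab : a ≠ b) {ins : ℕ → Instr} {N R q₀ n : ℕ}
    (hR : 0 < R) (hq₀ : q₀ < N) (hN : ∀ q < N, (ins q).Below N)
    (hreg : ∀ q < N, (ins q).RegBelow R)
    (hhalt : ∃ i, ins ((mstep ins)^[i] (q₀, init n)).1 = .halt) :
    ∃ M : EModel k, Finite M.World ∧ ∃ w, rsat M (haltForm a b ins N R q₀ n) Set.univ w := by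
  classical
  obtain ⟨T, hT, hmin⟩ : ∃ T, ins ((mstep ins)^[T] (q₀, init n)).1 = .halt ∧
      ∀ i < T, ins ((mstep ins)^[i] (q₀, init n)).1 ≠ .halt :=
    ⟨Nat.find hhalt, Nat.find_spec hhalt, fun i hi => Nat.find_min hhalt hi⟩
  set cf : ℕ → ℕ × Regs := fun i => (mstep ins)^[i] (q₀, init n) with hcf
  have hcf0 : cf 0 = (q₀, init n) := rfl
  have hcfs : ∀ i, cf (i + 1) = mstep ins (cf i) := by
    intro i
    simp only [hcf, Function.iterate_succ_apply']
  set st : ℕ → ℕ := fun i => (cf i).1 with hst
  set sv : ℕ → ℕ → ℕ := fun i => clocked R (cf i).2 i with hsv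
  obtain ⟨B, hB⟩ : ∃ B, ∀ (i : Fin (T + 1)) (r : Fin (R + 1)), sv i r ≤ B := by
    refine ⟨Finset.univ.sup fun p : Fin (T + 1) × Fin (R + 1) => sv p.1 p.2, fun i r => ?_⟩
    exact Finset.le_sup (f := fun p : Fin (T + 1) × Fin (R + 1) => sv p.1 p.2)
      (Finset.mem_univ (i, r))
  have hbelow : ∀ i, st i < N := by
    intro i
    induction i with
    | zero => exact hq₀
    | succ i ih =>
      have h1 := hN _ ih
      simp only [hst] at ih h1 ⊢
      rw [hcfs]
      generalize cf i = c at *
      obtain ⟨q, s⟩ := c
      simp only [mstep] at *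
      cases hq : ins q with
      | halt => exact ih
      | goto q' => rw [hq] at h1; exact h1
      | inc r q' => rw [hq] at h1; exact h1
      | jz r q₀' q₁' =>
        rw [hq] at h1
        simp only
        split_ifs
        · exact h1.1
        · exact h1.2
  refine ⟨compModel a b T R B st sv, inferInstanceAs (Finite (CW T R B)), CW.tin 0, ?_⟩
  set M := compModel a b T R B st sv with hM
  have hnn : ∀ (x : CW T R B) (i : Fin (T + 1)), CW.ka sv x = .inl (i : ℕ) →
      ¬ M.val Ltr.num.idx x := by
    intro x i hx h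
    have h' := (val_idx (a := a) (b := b) (st := st) (sv := sv) Ltr.num x).1 h
    cases x <;> simp [CW.ka, CW.tru] at hx h'
  -- the start condition
  have h0 : (compModel a b T R B st sv).val Ltr.num.idx (CW.tin 0) → False :=
    hnn (.tin 0) 0 rfl
  refine ⟨⟨⟨h0, ?_⟩, ?_, ?_⟩, ?_⟩
  · exact (rsat_form _ _ _).2 (show q₀ = st ((0 : Fin (T + 1)) : ℕ) by simp [hst, hcf0])
  · refine rsat_bigAnd.2 fun φ hφ => ?_
    obtain ⟨r, hr, rfl⟩ := List.mem_map.1 hφ
    rw [List.mem_range] at hr
    by_cases hr0 : r = 0
    · rw [if_pos hr0]; exact rsat_top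
    · rw [if_neg hr0]
      have hv : sv ((0 : Fin (T + 1)) : ℕ) r = 0 := by
        simp [hsv, clocked, hcf0, init, hr0]
      refine ⟨?_, ?_⟩
      · exact (alive_time (x := .tin 0) (i := 0) hab hB rfl (by omega) 0).2 (by omega)
      · refine (rsat_annPeel_one h0 0).2 ?_
        rw [rsat_neg, alive_time (x := .tin 0) (i := 0) hab hB rfl (by omega)]
        omega
  · refine (rsat_annPeel h0 n 0).2 ?_
    have hv : sv ((0 : Fin (T + 1)) : ℕ) 0 = n := by
      simp [hsv, clocked, hcf0, init, show (0 : ℕ) ≠ R by omega]
    rw [Nat.add_zero]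
    refine ⟨?_, ?_⟩
    · exact (alive_time (x := .tin 0) (i := 0) hab hB rfl (by omega) n).2 (by omega)
    · refine (rsat_annPeel_one h0 n).2 ?_
      rw [rsat_neg, alive_time (x := .tin 0) (i := 0) hab hB rfl (by omega)]
      omega
  · -- the local conditions
    intro x _
    refine ⟨rsat_imp.2 fun h => ?_, rsat_imp.2 fun h => ?_, rsat_bigAnd.2 fun φ hφ => ?_⟩
    · have h' := (rsat_form _ _ _).1 h
      cases x with
      | tout i => exact fun h => (rsat_form _ _ _).1 h
      | _ => simp [CW.tru] at h'
    · have h' := (rsat_form _ _ _).1 h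
      cases x with
      | tin i => exact fun h => (rsat_form _ _ _).1 h
      | _ => simp [CW.tru] at h'
    · obtain ⟨q, hq, rfl⟩ := List.mem_map.1 hφ
      rw [List.mem_range] at hq
      refine rsat_imp.2 fun hxq => ?_
      have hxq' := (rsat_form _ _ _).1 hxq
      obtain ⟨i, hx, hqi⟩ : ∃ i : Fin (T + 1), CW.ka sv x = .inl (i : ℕ) ∧ q = st i := by
        cases x with
        | tin i => exact ⟨i, rfl, hxq'⟩
        | tout i => exact ⟨i, rfl, hxq'⟩
        | treg i r => exact ⟨i, rfl, hxq'⟩
        | _ => simp [CW.tru] at hxq'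
      have hxn := hnn x i hx
      have hiT : (i : ℕ) = T ∨ (i : ℕ) < T := by omega
      have hne : (i : ℕ) < T → ins q ≠ .halt := by
        intro hi
        rw [hqi]
        exact hmin i hi
      have hiq : (i : ℕ) = T → ins q = .halt := by
        intro hi
        rw [hqi, hi]
        exact hT
      have hRB := hreg q hq
      have hstep := hcfs i
      have hqc : ins (cf i).1 = ins q := by rw [hqi]
      cases hins : ins q with
      | halt => exact rsat_top
      | goto q' =>
        have hi : (i : ℕ) < T := by
          rcases hiT with h | h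
          · rw [hiq h] at hins; exact absurd hins (by simp)
          · exact h
        rw [mstep, hqc, hins] at hstep
        refine ⟨diaN_time hab hx hi, moveTo_time hab hB hx hxn (fun _ => ?_) (fun r _ _ => ?_)
          (fun r _ h => ?_)⟩
        · simp only [hst, hstep]
        · by_cases h : r = R
          · simp [hsv, clocked, opsClock, h, Op.app]
          · simp [hsv, clocked, opsClock, h, Op.app, hstep]
        · simp only [opsClock] at h
          split_ifs at h
      | inc r₀ q' =>
        rw [hins] at hRB
        have hr₀ : r₀ < R := hRB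
        have hi : (i : ℕ) < T := by
          rcases hiT with h | h
          · rw [hiq h] at hins; exact absurd hins (by simp)
          · exact h
        rw [mstep, hqc, hins] at hstep
        refine ⟨diaN_time hab hx hi, moveTo_time hab hB hx hxn (fun _ => ?_) (fun r _ _ => ?_)
          (fun r _ h => ?_)⟩
        · simp only [hst, hstep]
        · by_cases h : r = R
          · simp [hsv, clocked, opsAt, h, Op.app]
          · by_cases h' : r = r₀
            · subst h'; simp [hsv, clocked, opsAt, h, Op.app, hstep]
            · simp [hsv, clocked, opsAt, h, h', Op.app, hstep]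
        · simp only [opsAt] at h
          split_ifs at h
      | jz r₀ q₀' q₁' =>
        rw [hins] at hRB
        have hr₀ : r₀ < R := hRB
        have hi : (i : ℕ) < T := by
          rcases hiT with h | h
          · rw [hiq h] at hins; exact absurd hins (by simp)
          · exact h
        rw [mstep, hqc, hins] at hstep
        have hc₀ : sv i r₀ = (cf i).2 r₀ := by simp [hsv, clocked, show r₀ ≠ R by omega]
        have hzero : rsat M (zero a b r₀) Set.univ x ↔ (cf i).2 r₀ = 0 := by
          have h1 : rsat M (zero a b r₀) (stage M a b 0) x ↔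
              rsat M (.neg (alive a b r₀)) (stage M a b (0 + 1)) x := rsat_annPeel_one hxn 0
          rw [stage_zero] at h1
          rw [h1, rsat_neg, alive_time hab hB hx (by omega), hc₀]
          omega
        refine ⟨diaN_time hab hx hi, rsat_imp.2 fun hz => ?_, rsat_imp.2 fun hz => ?_⟩
        · rw [hzero] at hz
          simp only [if_pos hz] at hstep
          refine moveTo_time hab hB hx hxn (fun _ => ?_) (fun r _ _ => ?_) (fun r _ h => ?_)
          · simp only [hst, hstep]
          · by_cases h : r = R
            · simp [hsv, clocked, opsClock, h, Op.app]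
            · simp [hsv, clocked, opsClock, h, Op.app, hstep]
          · simp only [opsClock] at h
            split_ifs at h
        · rw [rsat_neg, hzero] at hz
          simp only [if_neg hz] at hstep
          refine moveTo_time hab hB hx hxn (fun _ => ?_) (fun r _ _ => ?_) (fun r _ h => ?_)
          · simp only [hst, hstep]
          · by_cases h : r = R
            · simp [hsv, clocked, opsAt, h, Op.app]
            · by_cases h' : r = r₀
              · subst h'; simp [hsv, clocked, opsAt, h, Op.app, hstep]
              · simp [hsv, clocked, opsAt, h, h', Op.app, hstep]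
          · simp only [opsAt] at h
            split_ifs at h with h6 h7
            subst h7
            rw [hc₀]
            exact hz

end Pool.Agent.H83.PAL
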