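import Pool.Agent.H83.PALEncode

/-!
Bounded morphisms between epistemic models preserve relative truth.
-/

namespace Pool.Agent.H83.PAL

variable {k : ℕ}

/-- `B` bounds the letters of the formula. -/
def Form.bd : Form k → ℕ
  | .letter n => n + 1
  | .neg φ => φ.bd
  | .and φ ψ => max φ.bd ψ.bd
  | .K _ φ => φ.bd
  | .C _ φ => φ.bd
  | .ann φ ψ => max φ.bd ψ.bd
  | .iter φ ψ => max φ.bd ψ.bd

/-- `π` is a bounded morphism from the closed part `D` of `M` to `M'`, for the letters `< B`. -/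
structure PMorph (M M' : EModel k) (D : Set M.World) (π : M.World → M'.World) (B : ℕ) : Prop where
  closed : ∀ a x y, x ∈ D → M.rel a x y → y ∈ D
  forth : ∀ a x y, x ∈ D → y ∈ D → M.rel a x y → M'.rel a (π x) (π y)
  back : ∀ a x y, x ∈ D → y ∈ D → M'.rel a (π x) (π y) → ∃ z ∈ D, π z = π y ∧ M.rel a x z
  val : ∀ n < B, ∀ x ∈ D, (M.val n x ↔ M'.val n (π x))

/-- Matching sets of worlds. -/
structure Matched {M M' : EModel k} (D : Set M.World) (π : M.World → M'.World) (T : Set M.World)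
    (T' : Set M'.World) : Prop where
  map : ∀ y ∈ T, y ∈ D → π y ∈ T'
  surj : ∀ v ∈ T', ∃ y ∈ T, y ∈ D ∧ π y = v
  sat : ∀ y ∈ D, π y ∈ T' → y ∈ T

theorem rsat_morph {M M' : EModel k} {D : Set M.World} {π : M.World → M'.World} {B : ℕ}
    (h : PMorph M M' D π B) (φ : Form k) (hφ : φ.bd ≤ B) : ∀ (T : Set M.World) (T' : Set M'.World),
    Matched D π T T' → ∀ x ∈ T, x ∈ D → (rsat M φ T x ↔ rsat M' φ T' (π x)) := by
  have hcut : ∀ φ : Form k, (∀ (T : Set M.World) (T' : Set M'.World),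
      Matched D π T T' → ∀ x ∈ T, x ∈ D → (rsat M φ T x ↔ rsat M' φ T' (π x))) →
      ∀ (T : Set M.World) (T' : Set M'.World), Matched D π T T' →
      Matched D π (cut M φ T) (cut M' φ T') := by
    intro φ hφ T T' hT
    refine ⟨fun y hy hyD => ⟨hT.map y hy.1 hyD, (hφ T T' hT y hy.1 hyD).1 hy.2⟩, fun v hv => ?_,
      fun y hyD hy => ?_⟩
    · obtain ⟨y, hyT, hyD, rfl⟩ := hT.surj v hv.1
      exact ⟨y, ⟨hyT, (hφ T T' hT y hyT hyD).2 hv.2⟩, hyD, rfl⟩
    · have hyT := hT.sat y hyD hy.1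
      exact ⟨hyT, (hφ T T' hT y hyT hyD).2 hy.2⟩
  induction φ with
  | letter n =>
    intro T T' _ x _ hxD
    exact h.val n hφ x hxD
  | neg φ ih =>
    intro T T' hT x hxT hxD
    exact not_congr (ih hφ T T' hT x hxT hxD)
  | and φ ψ ih1 ih2 =>
    intro T T' hT x hxT hxD
    exact and_congr (ih1 (le_trans (le_max_left _ _) hφ) T T' hT x hxT hxD)
      (ih2 (le_trans (le_max_right _ _) hφ) T T' hT x hxT hxD)
  | K a φ ih =>
    intro T T' hT x hxT hxD
    constructor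
    · intro h1 v hv hr
      obtain ⟨y, hyT, hyD, rfl⟩ := hT.surj v hv
      obtain ⟨z, hzD, hzy, hxz⟩ := h.back a x y hxD hyD hr
      have hzT : z ∈ T := hT.sat z hzD (hzy ▸ hv)
      rw [← hzy]
      exact (ih hφ T T' hT z hzT hzD).1 (h1 z hzT hxz)
    · intro h1 v hv hr
      have hvD := h.closed a x v hxD hr
      exact (ih hφ T T' hT v hv hvD).2 (h1 (π v) (hT.map v hv hvD) (h.forth a x v hxD hvD hr))
  | C G φ ih =>
    intro T T' hT x hxT hxD
    constructor
    · intro h1 v hv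
      have key : ∃ y ∈ T, y ∈ D ∧ π y = v ∧
          Relation.TransGen (fun x y => x ∈ T ∧ y ∈ T ∧ ∃ a ∈ G.1, M.rel a x y) x y := by
        induction hv with
        | single hs =>
          obtain ⟨-, hv, a, ha, hr⟩ := hs
          obtain ⟨y, hyT, hyD, rfl⟩ := hT.surj _ hv
          obtain ⟨z, hzD, hzy, hxz⟩ := h.back a x y hxD hyD hr
          have hzT : z ∈ T := hT.sat z hzD (hzy ▸ hv)
          exact ⟨z, hzT, hzD, hzy, Relation.TransGen.single ⟨hxT, hzT, a, ha, hxz⟩⟩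
        | tail _ hs ihs =>
          obtain ⟨y, hyT, hyD, rfl, hxy⟩ := ihs
          obtain ⟨-, hv, a, ha, hr⟩ := hs
          obtain ⟨u, huT, huD, rfl⟩ := hT.surj _ hv
          obtain ⟨z, hzD, hzy, hxz⟩ := h.back a y u hyD huD hr
          have hzT : z ∈ T := hT.sat z hzD (hzy ▸ hv)
          exact ⟨z, hzT, hzD, hzy, hxy.tail ⟨hyT, hzT, a, ha, hxz⟩⟩
      obtain ⟨y, hyT, hyD, rfl, hxy⟩ := key
      exact (ih hφ T T' hT y hyT hyD).1 (h1 y hxy)
    · intro h1 v hv
      have key : v ∈ T ∧ v ∈ D ∧ Relation.TransGen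
          (fun x y => x ∈ T' ∧ y ∈ T' ∧ ∃ a ∈ G.1, M'.rel a x y) (π x) (π v) := by
        induction hv with
        | single hs =>
          obtain ⟨-, hv, a, ha, hr⟩ := hs
          have hvD := h.closed a x _ hxD hr
          exact ⟨hv, hvD, Relation.TransGen.single ⟨hT.map x hxT hxD, hT.map _ hv hvD, a, ha,
            h.forth a x _ hxD hvD hr⟩⟩
        | tail _ hs ihs =>
          obtain ⟨hyT, hyD, hxy⟩ := ihs
          obtain ⟨-, hv, a, ha, hr⟩ := hs
          have hvD := h.closed a _ _ hyD hr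
          exact ⟨hv, hvD, hxy.tail ⟨hT.map _ hyT hyD, hT.map _ hv hvD, a, ha,
            h.forth a _ _ hyD hvD hr⟩⟩
      exact (ih hφ T T' hT v key.1 key.2.1).2 (h1 (π v) key.2.2)
  | ann φ ψ ih1 ih2 =>
    intro T T' hT x hxT hxD
    have hφ1 : φ.bd ≤ B := le_trans (le_max_left _ _) hφ
    have hφ2 : ψ.bd ≤ B := le_trans (le_max_right _ _) hφ
    have e1 := ih1 hφ1 T T' hT x hxT hxD
    rw [rsat_ann, rsat_ann, e1]
    refine imp_congr_right fun hx => ?_
    exact ih2 hφ2 _ _ (hcut φ (ih1 hφ1) T T' hT) x ⟨hxT, e1.2 hx⟩ hxD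
  | iter φ ψ ih1 ih2 =>
    intro T T' hT x hxT hxD
    have hφ1 : φ.bd ≤ B := le_trans (le_max_left _ _) hφ
    have hφ2 : ψ.bd ≤ B := le_trans (le_max_right _ _) hφ
    rw [rsat_iter, rsat_iter]
    refine forall_congr' fun n => ?_
    have hTn : Matched D π ((cut M φ)^[n] T) ((cut M' φ)^[n] T') := by
      induction n with
      | zero => exact hT
      | succ n ihn =>
        rw [Function.iterate_succ_apply', Function.iterate_succ_apply']
        exact hcut φ (ih1 hφ1) _ _ ihn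
    constructor
    · intro h1 hx
      have hx' := hTn.sat x hxD hx
      exact (ih2 hφ2 _ _ hTn x hx' hxD).1 (h1 hx')
    · intro h1 hx
      exact (ih2 hφ2 _ _ hTn x hx hxD).2 (h1 (hTn.map x hx hxD))

end Pool.Agent.H83.PAL
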