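import Pool.Agent.H83.PALUpper

/-!
For one agent the set of codes of finitely valid formulas is computable.
-/

namespace Pool.Agent.H83.PAL

/-- The model of all valuations of the letters `≤ m`, all worlds being indistinguishable. -/
def allVal (m : ℕ) : MC :=
  (2 ^ (m + 1), [], (List.range (m + 1)).map fun n =>
    (List.range (2 ^ (m + 1))).filter fun x => x / 2 ^ n % 2 = 1)

theorem primrec_allVal : Primrec allVal := by
  have hpow : Primrec₂ ((· ^ ·) : ℕ → ℕ → ℕ) := Primrec₂.unpaired'.1 Nat.Primrec.pow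
  have h1 : Primrec fun m : ℕ => 2 ^ (m + 1) := hpow.comp (Primrec.const 2) Primrec.succ
  refine h1.pair (Primrec.pair (Primrec.const []) ?_)
  refine Primrec.list_map (Primrec.list_range.comp Primrec.succ) ?_
  have h2 : PrimrecRel fun (x : ℕ) (p : ℕ × ℕ) => x / 2 ^ p.2 % 2 = 1 := by
    have d1 : Primrec fun q : ℕ × (ℕ × ℕ) => 2 ^ q.2.2 :=
      hpow.comp (Primrec.const 2) (Primrec.snd.comp Primrec.snd)
    have d2 : Primrec fun q : ℕ × (ℕ × ℕ) => q.1 / 2 ^ q.2.2 :=
      Primrec.nat_div.comp Primrec.fst d1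
    have d3 : Primrec fun q : ℕ × (ℕ × ℕ) => q.1 / 2 ^ q.2.2 % 2 :=
      Primrec.nat_mod.comp d2 (Primrec.const 2)
    exact Primrec.eq.comp d3 (Primrec.const 1)
  exact primrec_filter (Γ := ℕ × ℕ) (L := fun p => List.range (2 ^ (p.1 + 1)))
    (R := fun x p => x / 2 ^ p.2 % 2 = 1) (Primrec.list_range.comp (h1.comp Primrec.fst)) h2

theorem bd_le_code {k : ℕ} (φ : Form k) : φ.bd ≤ φ.code + 1 := by
  induction φ with
  | letter n =>
    have := Nat.right_le_pair 0 n
    simp only [Form.bd, Form.code]; omega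
  | neg φ ih =>
    have := Nat.right_le_pair 1 φ.code
    simp only [Form.bd, Form.code]; omega
  | and φ ψ ih1 ih2 =>
    have h0 := Nat.right_le_pair 2 (Nat.pair φ.code ψ.code)
    have h1 := Nat.left_le_pair φ.code ψ.code
    have h2 := Nat.right_le_pair φ.code ψ.code
    simp only [Form.bd, Form.code]; omega
  | K a φ ih =>
    have h0 := Nat.right_le_pair 3 (Nat.pair a φ.code)
    have h2 := Nat.right_le_pair (a : ℕ) φ.code
    simp only [Form.bd, Form.code]; omega
  | C G φ ih =>
    have h0 := Nat.right_le_pair 4 (Nat.pair (∑ a ∈ G.1, 2 ^ (a : ℕ)) φ.code)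
    have h2 := Nat.right_le_pair (∑ a ∈ G.1, 2 ^ (a : ℕ)) φ.code
    simp only [Form.bd, Form.code]; omega
  | ann φ ψ ih1 ih2 =>
    have h0 := Nat.right_le_pair 5 (Nat.pair φ.code ψ.code)
    have h1 := Nat.left_le_pair φ.code ψ.code
    have h2 := Nat.right_le_pair φ.code ψ.code
    simp only [Form.bd, Form.code]; omega
  | iter φ ψ ih1 ih2 =>
    have h0 := Nat.right_le_pair 6 (Nat.pair φ.code ψ.code)
    have h1 := Nat.left_le_pair φ.code ψ.code
    have h2 := Nat.right_le_pair φ.code ψ.code
    simp only [Form.bd, Form.code]; omega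

theorem allVal_pos (m : ℕ) : 0 < (allVal m).1 := Nat.two_pow_pos _

/-- Validity in the submodels of a coded model. -/
theorem rsat_of_finValid {k : ℕ} {φ : Form k} (hφ : FinValid φ) (M : EModel k)
    (hM : Finite M.World) (S : Set M.World) (x : M.World) (hx : x ∈ S) : rsat M φ S x := by
  have h1 := sat_iff_rsat M φ (M.restrict (· ∈ S) x hx) (fun y => y.1)
    ⟨fun _ _ h => Subtype.ext h, fun _ _ _ => Iff.rfl, fun _ _ => Iff.rfl⟩ (M.point (· ∈ S) x hx)
  have h2 : Set.range (fun y : (M.restrict (· ∈ S) x hx).World => y.1) = S :=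
    Subtype.range_coe
  rw [h2] at h1
  exact h1.1 (hφ _ (inferInstanceAs (Finite {v : M.World // v ∈ S})) _)

theorem finValidCodes_one_iff (m : ℕ) : finValidCodes 1 m ↔
    isCode 1 m = true ∧ ∀ s ∈ sub (allVal m), ∀ x ∈ s, x ∈ ext 1 (allVal m) m s := by
  classical
  constructor
  · rintro ⟨φ, rfl, hφ⟩
    refine ⟨(isCode_iff _).2 ⟨φ, rfl⟩, fun s hs x hx => ?_⟩
    rw [ext_code (allVal φ.code) (allVal_pos _) φ s hs, mem_filt]
    refine ⟨hx, lt_of_mem_sub hs hx, ?_⟩
    exact rsat_of_finValid hφ (toModel 1 (allVal φ.code) (allVal_pos _)) inferInstance _ _ hx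
  · rintro ⟨hcode, hall⟩
    obtain ⟨φ, rfl⟩ := (isCode_iff _).1 hcode
    refine (finValidCodes_code φ).2 fun M hM w => ?_
    rw [sat_iff_rsat_univ]
    set m := φ.code with hm
    set c := allVal m with hc
    have hc0 : 0 < c.1 := allVal_pos m
    set D : Set M.World := {y | M.rel 0 w y} with hD
    set π : M.World → Fin c.1 := fun y =>
      ⟨Nat.ofBits fun i : Fin (m + 1) => decide (M.val i y), Nat.ofBits_lt_two_pow _⟩ with hπ
    have hmor : PMorph M (toModel 1 c hc0) D π (m + 1) := by
      refine ⟨fun a x y hx hr => ?_, fun a x y _ _ _ => ?_, fun a x y hx hy _ => ?_,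
        fun n hn x _ => ?_⟩
      · have : a = 0 := Subsingleton.elim _ _
        subst this
        exact (M.equiv 0).trans hx hr
      · show lab c a (π x) = lab c a (π y)
        simp [lab, hc, allVal]
      · have : a = 0 := Subsingleton.elim _ _
        subst this
        exact ⟨y, hy, rfl, (M.equiv 0).trans ((M.equiv 0).symm hx) hy⟩
      · show M.val n x ↔ (π x : ℕ) ∈ c.2.2.getD n []
        have : c.2.2.getD n [] = (List.range (2 ^ (m + 1))).filter
            fun x => x / 2 ^ n % 2 = 1 := by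
          simp [hc, allVal, List.getD_eq_getElem?_getD, hn]
        rw [this, List.mem_filter]
        have h1 : (π x : ℕ) ∈ List.range (2 ^ (m + 1)) := List.mem_range.2 (π x).2
        have h2 : decide ((π x : ℕ) / 2 ^ n % 2 = 1) = decide (M.val n x) := by
          rw [← Nat.testBit_eq_decide_div_mod_eq]
          simp only [hπ]
          rw [Nat.testBit_ofBits_lt _ _ hn]
        constructor
        · intro hv
          exact ⟨h1, by rw [h2]; exact decide_eq_true hv⟩
        · rintro ⟨_, h3⟩
          rw [h2] at h3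
          exact of_decide_eq_true h3
    set s : List ℕ := (List.range c.1).filter fun v => ∃ y ∈ D, (π y : ℕ) = v with hs
    have hssub : s ∈ sub c := sub_of_sublist (range_mem_sub c) List.filter_sublist
    have hmems : ∀ v, v ∈ s ↔ v < c.1 ∧ ∃ y ∈ D, (π y : ℕ) = v := by
      intro v
      simp [hs]
    have hmat : Matched (M := M) (M' := toModel 1 c hc0) D π Set.univ (toSet 1 c hc0 s) := by
      refine ⟨fun y _ hy => (hmems _).2 ⟨(π y).2, y, hy, rfl⟩, fun v hv => ?_, fun _ _ _ => trivial⟩
      obtain ⟨_, y, hy, hyv⟩ := (hmems _).1 hv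
      exact ⟨y, trivial, hy, Fin.ext hyv⟩
    have hwD : w ∈ D := (M.equiv 0).refl w
    refine (rsat_morph hmor φ (bd_le_code φ) _ _ hmat w trivial hwD).2 ?_
    have hw : (π w : ℕ) ∈ s := (hmems _).2 ⟨(π w).2, w, hwD, rfl⟩
    have := hall s hssub _ hw
    rw [ext_code c hc0 φ s hssub, mem_filt] at this
    obtain ⟨_, _, h⟩ := this
    exact h

/-- For one agent the set of codes of finitely valid formulas is computable. -/
theorem computable_one : ComputablePred (finValidCodes 1) := by
  classical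
  have h : PrimrecPred fun m : ℕ => isCode 1 m = true ∧
      ∀ s ∈ sub (allVal m), ∀ x ∈ s, x ∈ ext 1 (allVal m) m s := by
    refine PrimrecPred.and (Primrec.eq.comp (primrec_isCode 1) (Primrec.const true)) ?_
    have h1 : PrimrecRel fun (s : List ℕ) (m : ℕ) => ∀ x ∈ s, x ∈ ext 1 (allVal m) m s := by
      have h2 : PrimrecRel fun (x : ℕ) (p : List ℕ × ℕ) => x ∈ ext 1 (allVal p.2) p.2 p.1 := by
        have h3 : Primrec fun p : List ℕ × ℕ => ext 1 (allVal p.2) p.2 p.1 :=
          (primrec_ext 1).comp ((primrec_allVal.comp Primrec.snd).pair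
            (Primrec.snd.pair Primrec.fst))
        exact primrec_mem (Γ := ℕ × (List ℕ × ℕ)) Primrec.fst (h3.comp Primrec.snd)
      exact primrec_ball (Γ := List ℕ × ℕ) Primrec.fst h2
    exact h1.forall_mem_list.comp (primrec_sub.comp primrec_allVal) Primrec.id
  have h' : PrimrecPred (finValidCodes 1) := h.of_eq fun m => (finValidCodes_one_iff m).symm
  obtain ⟨inst, hinst⟩ := h'
  exact ⟨inst, hinst.to_comp⟩

end Pool.Agent.H83.PAL
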