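import Pool.Agent.H83.PALDefs

/-!
Relative semantics: truth in submodels of a fixed model, given by their sets of worlds.
-/

namespace Pool.Agent.H83.PAL

variable {k : ℕ}

/-- Truth at `w` in the submodel of `M` with set of worlds `S`. -/
def rsat (M : EModel k) : Form k → Set M.World → M.World → Prop
  | .letter n => fun _ w => M.val n w
  | .neg φ => fun S w => ¬ rsat M φ S w
  | .and φ ψ => fun S w => rsat M φ S w ∧ rsat M ψ S w
  | .K a φ => fun S w => ∀ v ∈ S, M.rel a w v → rsat M φ S v
  | .C G φ => fun S w =>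
      ∀ v, Relation.TransGen (fun x y => x ∈ S ∧ y ∈ S ∧ ∃ a ∈ G.1, M.rel a x y) w v →
        rsat M φ S v
  | .ann φ ψ => fun S w => rsat M φ S w → rsat M ψ {v | v ∈ S ∧ rsat M φ S v} w
  | .iter φ ψ => fun S w => ∀ n, w ∈ (fun T : Set M.World => {v | v ∈ T ∧ rsat M φ T v})^[n] S →
      rsat M ψ ((fun T : Set M.World => {v | v ∈ T ∧ rsat M φ T v})^[n] S) w

/-- One announcement, as an operation on sets of worlds. -/
def cut (M : EModel k) (φ : Form k) (S : Set M.World) : Set M.World := {v | v ∈ S ∧ rsat M φ S v}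

theorem rsat_iter {M : EModel k} {φ ψ : Form k} {S : Set M.World} {w : M.World} :
    rsat M (.iter φ ψ) S w ↔ ∀ n, w ∈ (cut M φ)^[n] S → rsat M ψ ((cut M φ)^[n] S) w := Iff.rfl

theorem rsat_ann {M : EModel k} {φ ψ : Form k} {S : Set M.World} {w : M.World} :
    rsat M (.ann φ ψ) S w ↔ (rsat M φ S w → rsat M ψ (cut M φ S) w) := Iff.rfl

/-- `N` is the submodel of `M` on the range of `e`. -/
structure IsSub (N M : EModel k) (e : N.World → M.World) : Prop where
  inj : Function.Injective e
  rel : ∀ a x y, N.rel a x y ↔ M.rel a (e x) (e y)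
  val : ∀ n x, N.val n x ↔ M.val n (e x)

theorem IsSub.restrict {N M : EModel k} {e : N.World → M.World} (h : IsSub N M e)
    (P : N.World → Prop) (w : N.World) (hw : P w) :
    IsSub (N.restrict P w hw) M (fun x => e x.1) where
  inj := fun _ _ hxy => Subtype.ext (h.inj hxy)
  rel := fun a x y => h.rel a x.1 y.1
  val := fun n x => h.val n x.1

theorem range_restrict {N M : EModel k} (e : N.World → M.World)
    (P : N.World → Prop) (Q : M.World → Prop) (hPQ : ∀ x, P x ↔ Q (e x)) (w : N.World)
    (hw : P w) :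
    Set.range (fun x : (N.restrict P w hw).World => e x.1) = {v | v ∈ Set.range e ∧ Q v} := by
  ext v
  constructor
  · rintro ⟨x, rfl⟩
    exact ⟨⟨x.1, rfl⟩, (hPQ _).1 x.2⟩
  · rintro ⟨⟨x, rfl⟩, hv⟩
    exact ⟨⟨x, (hPQ _).2 hv⟩, rfl⟩

/-- Truth in a submodel agrees with relative truth. -/
theorem sat_iff_rsat (M : EModel k) (φ : Form k) : ∀ (N : EModel k) (e : N.World → M.World),
    IsSub N M e → ∀ w, sat φ N w ↔ rsat M φ (Set.range e) (e w) := by
  induction φ with
  | letter n => intro N e he w; exact he.val n w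
  | neg φ ih => intro N e he w; exact not_congr (ih N e he w)
  | and φ ψ ih1 ih2 => intro N e he w; exact and_congr (ih1 N e he w) (ih2 N e he w)
  | K a φ ih =>
    intro N e he w
    constructor
    · rintro h v ⟨x, rfl⟩ hx
      exact (ih N e he x).1 (h x ((he.rel a w x).2 hx))
    · intro h v hv
      exact (ih N e he v).2 (h (e v) ⟨v, rfl⟩ ((he.rel a w v).1 hv))
  | C G φ ih =>
    intro N e he w
    constructor
    · intro h v hv
      have : ∃ x, e x = v ∧ Relation.TransGen (fun x y => ∃ a ∈ G.1, N.rel a x y) w x := by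
        induction hv with
        | single h1 =>
          obtain ⟨-, ⟨x, rfl⟩, a, ha, hr⟩ := h1
          exact ⟨x, rfl, Relation.TransGen.single ⟨a, ha, (he.rel a w x).2 hr⟩⟩
        | tail _ h1 ih1 =>
          obtain ⟨y, rfl, hy⟩ := ih1
          obtain ⟨-, ⟨x, rfl⟩, a, ha, hr⟩ := h1
          exact ⟨x, rfl, hy.tail ⟨a, ha, (he.rel a y x).2 hr⟩⟩
      obtain ⟨x, rfl, hx⟩ := this
      exact (ih N e he x).1 (h x hx)
    · intro h v hv
      refine (ih N e he v).2 (h (e v) ?_)
      induction hv with
      | single h1 =>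
        obtain ⟨a, ha, hr⟩ := h1
        exact Relation.TransGen.single ⟨⟨w, rfl⟩, ⟨_, rfl⟩, a, ha, (he.rel a _ _).1 hr⟩
      | tail _ h1 ih1 =>
        obtain ⟨a, ha, hr⟩ := h1
        exact ih1.tail ⟨⟨_, rfl⟩, ⟨_, rfl⟩, a, ha, (he.rel a _ _).1 hr⟩
  | ann φ ψ ih1 ih2 =>
    intro N e he w
    have key : ∀ h : sat φ N w, sat ψ (N.restrict (sat φ N) w h) (N.point (sat φ N) w h) ↔
        rsat M ψ {v | v ∈ Set.range e ∧ rsat M φ (Set.range e) v} (e w) := by
      intro h
      rw [ih2 _ _ (he.restrict _ w h)]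
      rw [range_restrict e (sat φ N) (rsat M φ (Set.range e)) (ih1 N e he) w h]
      exact Iff.rfl
    constructor
    · intro h hw
      have hw' := (ih1 N e he w).2 hw
      exact (key hw').1 (h hw')
    · intro h hw
      exact (key hw).2 (h ((ih1 N e he w).1 hw))
  | iter φ ψ ih1 ih2 =>
    intro N e he w
    refine forall_congr' fun n => ?_
    induction n generalizing N with
    | zero =>
      show sat ψ N w ↔ (e w ∈ Set.range e → rsat M ψ (Set.range e) (e w))
      rw [ih2 N e he w]
      exact ⟨fun h _ => h, fun h => h ⟨w, rfl⟩⟩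
    | succ n ihn =>
      rw [Function.iterate_succ_apply]
      show (∀ h : sat φ N w, afterIter (sat φ) (sat ψ) n (N.restrict (sat φ N) w h)
        (N.point (sat φ N) w h)) ↔ _
      have key : ∀ h : sat φ N w,
          (afterIter (sat φ) (sat ψ) n (N.restrict (sat φ N) w h) (N.point (sat φ N) w h) ↔
          (e w ∈ (fun T : Set M.World => {v | v ∈ T ∧ rsat M φ T v})^[n]
            {v | v ∈ Set.range e ∧ rsat M φ (Set.range e) v} →
          rsat M ψ ((fun T : Set M.World => {v | v ∈ T ∧ rsat M φ T v})^[n]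
            {v | v ∈ Set.range e ∧ rsat M φ (Set.range e) v}) (e w))) := by
        intro h
        rw [ihn _ _ (he.restrict _ w h)]
        rw [range_restrict e (sat φ N) (rsat M φ (Set.range e)) (ih1 N e he) w h]
        exact Iff.rfl
      have hsub : ∀ (n : ℕ) (T : Set M.World),
          (fun T : Set M.World => {v | v ∈ T ∧ rsat M φ T v})^[n] T ⊆ T := by
        intro n
        induction n with
        | zero => intro T; exact subset_rfl
        | succ n ih =>
          intro T
          rw [Function.iterate_succ_apply]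
          exact (ih _).trans fun v hv => hv.1
      constructor
      · intro h hw
        have hw' : sat φ N w := (ih1 N e he w).2 (hsub _ _ hw).2
        exact (key hw').1 (h hw') hw
      · intro h hw
        exact (key hw).2 h

/-- Truth in a model is relative truth for the set of all worlds. -/
theorem sat_iff_rsat_univ (M : EModel k) (φ : Form k) (w : M.World) :
    sat φ M w ↔ rsat M φ Set.univ w := by
  have := sat_iff_rsat M φ M id ⟨Function.injective_id, fun _ _ _ => Iff.rfl, fun _ _ => Iff.rfl⟩ w
  simpa using this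

end Pool.Agent.H83.PAL
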