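import Pool.Agent.H83.PALCorrect
import Pool.Agent.H83.PALMorph

/-!
The set of codes of finitely valid formulas is co-r.e., and computable for one agent.
-/

namespace Pool.Agent.H83.PAL

variable {k : ℕ}

/-! ### Recognising codes -/

/-- The codes of the nonempty groups. -/
noncomputable def groupCodes (k : ℕ) : List ℕ :=
  ((Finset.univ : Finset (Finset (Fin k))).filter Finset.Nonempty).toList.map gcode

theorem mem_groupCodes {g : ℕ} :
    g ∈ groupCodes k ↔ ∃ G : Finset (Fin k), G.Nonempty ∧ gcode G = g := by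
  simp [groupCodes]

/-- One step of the recognition of codes. -/
noncomputable def codeStep (k : ℕ) (e : ℕ → Bool) (m : ℕ) : Bool :=
  if m.unpair.1 = 0 then true
  else if m.unpair.1 = 1 then e m.unpair.2
  else if m.unpair.1 = 2 ∨ m.unpair.1 = 5 ∨ m.unpair.1 = 6 then
    e m.unpair.2.unpair.1 && e m.unpair.2.unpair.2
  else if m.unpair.1 = 3 then decide (m.unpair.2.unpair.1 < k) && e m.unpair.2.unpair.2
  else if m.unpair.1 = 4 then
    decide (m.unpair.2.unpair.1 ∈ groupCodes k) && e m.unpair.2.unpair.2
  else false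

/-- Recognition of codes. -/
noncomputable def isCode (k : ℕ) (m : ℕ) : Bool :=
  codeStep k (fun i => if _h : i < m then isCode k i else false) m
termination_by m
decreasing_by assumption

theorem isCode_eq (k : ℕ) (m : ℕ) :
    isCode k m = codeStep k (fun i => if i < m then isCode k i else false) m := by
  rw [isCode]
  simp only [dite_eq_ite]

theorem primrec_codeStep (k : ℕ) :
    Primrec fun p : List Bool × ℕ => codeStep k (fun i => p.1.getD i false) p.2 := by
  have hm : Primrec fun p : List Bool × ℕ => p.2 := Primrec.snd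
  have ht : Primrec fun p : List Bool × ℕ => p.2.unpair.1 :=
    Primrec.fst.comp (Primrec.unpair.comp hm)
  have hr : Primrec fun p : List Bool × ℕ => p.2.unpair.2 :=
    Primrec.snd.comp (Primrec.unpair.comp hm)
  have hr1 : Primrec fun p : List Bool × ℕ => p.2.unpair.2.unpair.1 :=
    Primrec.fst.comp (Primrec.unpair.comp hr)
  have hr2 : Primrec fun p : List Bool × ℕ => p.2.unpair.2.unpair.2 :=
    Primrec.snd.comp (Primrec.unpair.comp hr)
  have htag : ∀ i, PrimrecPred fun p : List Bool × ℕ => p.2.unpair.1 = i :=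
    fun i => Primrec.eq.comp ht (Primrec.const i)
  have hget : ∀ {f : List Bool × ℕ → ℕ}, Primrec f →
      Primrec fun p : List Bool × ℕ => p.1.getD (f p) false :=
    fun hf => (Primrec.list_getD false).comp Primrec.fst hf
  have hlt : PrimrecPred fun p : List Bool × ℕ => p.2.unpair.2.unpair.1 < k :=
    Primrec.nat_lt.comp hr1 (Primrec.const k)
  have hmem : PrimrecPred fun p : List Bool × ℕ => p.2.unpair.2.unpair.1 ∈ groupCodes k := by
    generalize groupCodes k = L
    exact primrec_mem hr1 (Primrec.const L)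
  unfold codeStep
  refine Primrec.ite (htag 0) (Primrec.const true) (Primrec.ite (htag 1) (hget hr)
    (Primrec.ite ((htag 2).or ((htag 5).or (htag 6))) (Primrec.and.comp (hget hr1) (hget hr2))
    (Primrec.ite (htag 3) (Primrec.and.comp hlt.decide (hget hr2))
    (Primrec.ite (htag 4) (Primrec.and.comp hmem.decide (hget hr2)) (Primrec.const false)))))

theorem primrec_isCode (k : ℕ) : Primrec (isCode k) := by
  have h : Primrec₂ fun (_ : Unit) (m : ℕ) => isCode k m := by
    refine Primrec.nat_strong_rec _ (g := fun _ prev =>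
      some (codeStep k (fun i => prev.getD i false) prev.length)) ?_ ?_
    · refine Primrec.option_some.comp ?_
      exact (primrec_codeStep k).comp (Primrec.snd.pair (Primrec.list_length.comp Primrec.snd))
    · intro _ n
      simp only [List.length_map, List.length_range]
      rw [isCode_eq]
      congr 2
      funext i
      by_cases hi : i < n
      · simp [List.getD_eq_getElem?_getD, hi]
      · simp [List.getD_eq_getElem?_getD, hi]
  exact h.comp (Primrec.const ()) Primrec.id

theorem isCode_iff (m : ℕ) : isCode k m = true ↔ ∃ φ : Form k, φ.code = m := by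
  constructor
  · induction m using Nat.strong_induction_on with
    | _ m ih =>
      intro h
      rw [isCode_eq] at h
      have hm : Nat.pair m.unpair.1 m.unpair.2 = m := Nat.pair_unpair m
      have hr : Nat.pair m.unpair.2.unpair.1 m.unpair.2.unpair.2 = m.unpair.2 :=
        Nat.pair_unpair _
      unfold codeStep at h
      have get1 : ∀ i, (if i < m then isCode k i else false) = true →
          ∃ φ : Form k, φ.code = i := by
        intro i hi
        by_cases h1 : i < m
        · rw [if_pos h1] at hi
          exact ih i h1 hi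
        · rw [if_neg h1] at hi
          exact absurd hi (by simp)
      split_ifs at h with h0 h1 h2 h3 h4
      · exact ⟨.letter m.unpair.2, by rw [Form.code, ← h0, hm]⟩
      · obtain ⟨φ, hφ⟩ := get1 _ h
        exact ⟨.neg φ, by rw [Form.code, hφ, ← h1, hm]⟩
      · rw [Bool.and_eq_true] at h
        obtain ⟨φ, hφ⟩ := get1 _ h.1
        obtain ⟨ψ, hψ⟩ := get1 _ h.2
        rcases h2 with h2 | h2 | h2
        · exact ⟨.and φ ψ, by rw [Form.code, hφ, hψ, hr, ← h2, hm]⟩
        · exact ⟨.ann φ ψ, by rw [Form.code, hφ, hψ, hr, ← h2, hm]⟩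
        · exact ⟨.iter φ ψ, by rw [Form.code, hφ, hψ, hr, ← h2, hm]⟩
      · rw [Bool.and_eq_true, decide_eq_true_eq] at h
        obtain ⟨φ, hφ⟩ := get1 _ h.2
        exact ⟨.K ⟨_, h.1⟩ φ, by rw [Form.code, hφ, hr, ← h3, hm]⟩
      · rw [Bool.and_eq_true, decide_eq_true_eq] at h
        obtain ⟨φ, hφ⟩ := get1 _ h.2
        obtain ⟨G, hG, hg⟩ := mem_groupCodes.1 h.1
        have hg' : ∑ a ∈ G, 2 ^ (a : ℕ) = m.unpair.2.unpair.1 := hg
        exact ⟨.C ⟨G, hG⟩ φ, by simp only [Form.code]; rw [hφ, hg', hr, ← h4, hm]⟩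
  · rintro ⟨φ, rfl⟩
    induction φ with
    | letter n =>
      rw [isCode_eq]
      simp [codeStep, Form.code]
    | neg φ ih =>
      have e1 : φ.code < Nat.pair 1 φ.code := lt_tag (by omega)
      rw [isCode_eq]
      simp [codeStep, Form.code, e1, ih]
    | and φ ψ ih1 ih2 =>
      have e0 : Nat.pair φ.code ψ.code < Nat.pair 2 (Nat.pair φ.code ψ.code) := lt_tag (by omega)
      have e1 := lt_of_le_of_lt (Nat.left_le_pair φ.code ψ.code) e0
      have e2 := lt_of_le_of_lt (Nat.right_le_pair φ.code ψ.code) e0
      rw [isCode_eq]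
      simp [codeStep, Form.code, e1, e2, ih1, ih2]
    | K a φ ih =>
      have e0 : Nat.pair (a : ℕ) φ.code < Nat.pair 3 (Nat.pair (a : ℕ) φ.code) :=
        lt_tag (by omega)
      have e2 := lt_of_le_of_lt (Nat.right_le_pair (a : ℕ) φ.code) e0
      rw [isCode_eq]
      simp [codeStep, Form.code, e2, ih]
    | C G φ ih =>
      have e0 : Nat.pair (∑ a ∈ G.1, 2 ^ (a : ℕ)) φ.code <
          Nat.pair 4 (Nat.pair (∑ a ∈ G.1, 2 ^ (a : ℕ)) φ.code) := lt_tag (by omega)
      have e2 := lt_of_le_of_lt (Nat.right_le_pair (∑ a ∈ G.1, 2 ^ (a : ℕ)) φ.code) e0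
      have hG : ∑ a ∈ G.1, 2 ^ (a : ℕ) ∈ groupCodes k := mem_groupCodes.2 ⟨G.1, G.2, rfl⟩
      rw [isCode_eq]
      simp [codeStep, Form.code, e2, ih, hG]
    | ann φ ψ ih1 ih2 =>
      have e0 : Nat.pair φ.code ψ.code < Nat.pair 5 (Nat.pair φ.code ψ.code) := lt_tag (by omega)
      have e1 := lt_of_le_of_lt (Nat.left_le_pair φ.code ψ.code) e0
      have e2 := lt_of_le_of_lt (Nat.right_le_pair φ.code ψ.code) e0
      rw [isCode_eq]
      simp [codeStep, Form.code, e1, e2, ih1, ih2]
    | iter φ ψ ih1 ih2 =>
      have e0 : Nat.pair φ.code ψ.code < Nat.pair 6 (Nat.pair φ.code ψ.code) := lt_tag (by omega)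
      have e1 := lt_of_le_of_lt (Nat.left_le_pair φ.code ψ.code) e0
      have e2 := lt_of_le_of_lt (Nat.right_le_pair φ.code ψ.code) e0
      rw [isCode_eq]
      simp [codeStep, Form.code, e1, e2, ih1, ih2]

/-! ### Refutations in coded models -/

theorem range_mem_sub (c : MC) : List.range c.1 ∈ sub c :=
  List.mem_sublists'.2 (List.Sublist.refl _)

theorem toSet_range (c : MC) (h : 0 < c.1) : toSet k c h (List.range c.1) = Set.univ := by
  ext x
  constructor
  · intro _; trivial
  · intro _
    exact List.mem_range.2 (x : Fin c.1).2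

/-- Every finite model with a refutation gives a coded model with a refutation. -/
theorem exists_coded {φ : Form k} {M : EModel k} (hM : Finite M.World) {w : M.World}
    (hw : ¬ sat φ M w) : ∃ (c : MC) (h : 0 < c.1) (x : Fin c.1),
      ¬ rsat (toModel k c h) φ Set.univ x := by
  classical
  have e : M.World ≃ Fin (Nat.card M.World) := Finite.equivFin M.World
  have hN : 0 < Nat.card M.World := Nat.card_pos_iff.2 ⟨M.nonempty, hM⟩
  set N := Nat.card M.World with hNdef
  -- labels
  have hlabel : ∀ a : Fin k, ∃ f : M.World → ℕ, ∀ x y, M.rel a x y ↔ f x = f y := by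
    intro a
    let st : Setoid M.World := ⟨M.rel a, M.equiv a⟩
    have : Finite (Quotient st) := Quotient.finite st
    refine ⟨fun x => (Finite.equivFin (Quotient st) ⟦x⟧ : ℕ), fun x y => ?_⟩
    constructor
    · intro hxy
      have : (⟦x⟧ : Quotient st) = ⟦y⟧ := Quotient.sound hxy
      simp only [this]
    · intro hxy
      have := (Finite.equivFin (Quotient st)).injective (Fin.ext hxy)
      exact Quotient.exact this
  choose f hf using hlabel
  set c : MC := (N, (List.finRange k).map (fun a => (List.finRange N).map fun x => f a (e.symm x)),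
    (List.range φ.bd).map fun n =>
      ((List.finRange N).filter fun x => M.val n (e.symm x)).map Fin.val) with hc
  have hc0 : 0 < c.1 := hN
  refine ⟨c, hc0, e w, ?_⟩
  have hlab : ∀ (a : Fin k) (x : Fin N), lab c a x = f a (e.symm x) := by
    intro a x
    simp [lab, hc, List.getD_eq_getElem?_getD]
  have hmor : PMorph M (toModel k c hc0) Set.univ (fun x => (e x : Fin c.1)) φ.bd := by
    refine ⟨fun _ _ _ _ _ => trivial, fun a x y _ _ hr => ?_, fun a x y _ _ hr => ?_,
      fun n hn x _ => ?_⟩
    · show lab c a (e x) = lab c a (e y)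
      rw [hlab, hlab, e.symm_apply_apply, e.symm_apply_apply]
      exact (hf a x y).1 hr
    · refine ⟨y, trivial, rfl, (hf a x y).2 ?_⟩
      have hr' : lab c a (e x) = lab c a (e y) := hr
      rw [hlab, hlab, e.symm_apply_apply, e.symm_apply_apply] at hr'
      exact hr'
    · show M.val n x ↔ (e x : ℕ) ∈ c.2.2.getD n []
      have : c.2.2.getD n [] = ((List.finRange N).filter fun x => M.val n (e.symm x)).map
          Fin.val := by
        simp [hc, List.getD_eq_getElem?_getD, hn]
      rw [this, List.mem_map]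
      constructor
      · intro hv
        exact ⟨e x, by simpa using hv, rfl⟩
      · rintro ⟨y, hy, hxy⟩
        have : y = e x := Fin.ext hxy
        subst this
        simpa using hy
  have hmat : Matched (M := M) (M' := toModel k c hc0) Set.univ (fun x => (e x : Fin c.1))
      Set.univ Set.univ :=
    ⟨fun _ _ _ => trivial, fun v _ => ⟨e.symm v, trivial, trivial, e.apply_symm_apply v⟩,
      fun _ _ _ => trivial⟩
  intro hsat
  exact hw ((sat_iff_rsat_univ M φ w).2
    ((rsat_morph hmor φ le_rfl _ _ hmat w trivial trivial).2 hsat))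

instance (c : MC) (h : 0 < c.1) : Finite (toModel k c h).World :=
  inferInstanceAs (Finite (Fin c.1))

theorem not_finValidCodes_iff (m : ℕ) : ¬ finValidCodes k m ↔
    ∃ c : MC, isCode k m = false ∨ (0 < c.1 ∧ ∃ x ∈ List.range c.1,
      x ∉ ext k c m (List.range c.1)) := by
  constructor
  · intro hm
    by_cases hcode : isCode k m = false
    · exact ⟨(0, [], []), Or.inl hcode⟩
    · obtain ⟨φ, rfl⟩ := (isCode_iff (k := k) m).1 (by simpa using hcode)
      rw [finValidCodes_code] at hm
      unfold FinValid at hm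
      push Not at hm
      obtain ⟨M, hM, w, hw⟩ := hm
      obtain ⟨c, hc, x, hx⟩ := exists_coded hM hw
      refine ⟨c, Or.inr ⟨hc, x, List.mem_range.2 x.2, ?_⟩⟩
      rw [ext_code c hc φ _ (range_mem_sub c), mem_filt]
      rintro ⟨-, hx', h⟩
      rw [toSet_range] at h
      exact hx h
  · rintro ⟨c, hcode | ⟨hc, x, hx, hxe⟩⟩ ⟨φ, rfl, hφ⟩
    · have := (isCode_iff (k := k) φ.code).2 ⟨φ, rfl⟩
      rw [this] at hcode
      exact absurd hcode (by simp)
    · rw [ext_code c hc φ _ (range_mem_sub c), mem_filt] at hxe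
      refine hxe ⟨hx, List.mem_range.1 hx, ?_⟩
      rw [toSet_range]
      exact (sat_iff_rsat_univ _ _ _).1 (hφ (toModel k c hc) inferInstance _)

/-- Projections of primitive recursive relations are r.e. -/
theorem rePred_exists {α β : Type} [Primcodable α] [Primcodable β] {P : α → β → Prop}
    (hP : PrimrecRel P) : REPred fun a => ∃ b, P a b := by
  classical
  have hdec : PrimrecPred fun p : α × ℕ => ∃ b ∈ (Encodable.decode (α := β) p.2).toList,
      P p.1 b := by
    have h1 : PrimrecRel fun (b : β) (a : α) => P a b := hP.swap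
    have h2 : PrimrecRel fun (L : List β) (a : α) => ∃ b ∈ L, P a b := h1.exists_mem_list
    exact h2.comp (Primrec.optionToList.comp (Primrec.decode.comp Primrec.snd)) Primrec.fst
  have hf : Primrec₂ fun (a : α) (n : ℕ) =>
      if ∃ b ∈ (Encodable.decode (α := β) n).toList, P a b then some () else none :=
    Primrec.ite hdec (Primrec.const (some ())) (Primrec.const none)
  refine (Partrec.dom_re (Partrec.rfindOpt hf.to_comp)).of_eq fun a => ?_
  rw [Nat.rfindOpt_dom]
  constructor
  · rintro ⟨n, u, hn⟩
    by_cases h : ∃ b ∈ (Encodable.decode (α := β) n).toList, P a b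
    · obtain ⟨b, -, hb⟩ := h
      exact ⟨b, hb⟩
    · rw [if_neg h] at hn
      exact absurd hn (by simp)
  · rintro ⟨b, hb⟩
    refine ⟨Encodable.encode b, (), ?_⟩
    rw [if_pos ⟨b, by simp, hb⟩]
    rfl

/-- The set of codes of finitely valid formulas is co-r.e. -/
theorem upper (k : ℕ) : REPred fun m => ¬ finValidCodes k m := by
  have h : PrimrecRel fun (m : ℕ) (c : MC) => isCode k m = false ∨
      (0 < c.1 ∧ ∃ x ∈ List.range c.1, x ∉ ext k c m (List.range c.1)) := by
    have h1 : PrimrecPred fun p : ℕ × MC => isCode k p.1 = false :=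
      Primrec.eq.comp ((primrec_isCode k).comp Primrec.fst) (Primrec.const false)
    have h2 : PrimrecPred fun p : ℕ × MC => 0 < p.2.1 :=
      Primrec.nat_lt.comp (Primrec.const 0) (Primrec.fst.comp Primrec.snd)
    have h3 : Primrec fun p : ℕ × MC => List.range p.2.1 :=
      Primrec.list_range.comp (Primrec.fst.comp Primrec.snd)
    have h4 : Primrec fun p : ℕ × MC => ext k p.2 p.1 (List.range p.2.1) :=
      (primrec_ext k).comp (Primrec.snd.pair (Primrec.fst.pair h3))
    have h5 : PrimrecRel fun (x : ℕ) (p : ℕ × MC) => x ∉ ext k p.2 p.1 (List.range p.2.1) :=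
      (primrec_mem (Γ := ℕ × (ℕ × MC)) Primrec.fst (h4.comp Primrec.snd)).not
    exact h1.or (h2.and (primrec_bex h3 h5))
  exact (rePred_exists h).of_eq fun m => (not_finValidCodes_iff m).symm

end Pool.Agent.H83.PAL
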