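import Mathlib

/-!
While programs over natural-number registers, and the fact that every recursively enumerable
set of natural numbers is the halting set of such a program.
-/

namespace Pool.Agent.H83

open Function

/-- While programs: `loop r p` is `while r > 0 do { r := r - 1; p }`. -/
inductive Prog : Type
  | skip : Prog
  | inc (r : ℕ) : Prog
  | seq (p q : Prog) : Prog
  | loop (r : ℕ) (p : Prog) : Prog
  deriving DecidableEq

/-- Register files. -/
abbrev Regs := ℕ → ℕ

/-- Big-step semantics. -/
inductive Big : Prog → Regs → Regs → Prop
  | skip (s : Regs) : Big .skip s s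
  | inc (r : ℕ) (s : Regs) : Big (.inc r) s (update s r (s r + 1))
  | seq {p q : Prog} {s s' s'' : Regs} : Big p s s' → Big q s' s'' → Big (.seq p q) s s''
  | loopZ {r : ℕ} {p : Prog} {s : Regs} : s r = 0 → Big (.loop r p) s s
  | loopS {r : ℕ} {p : Prog} {s s' s'' : Regs} (m : ℕ) : s r = m + 1 →
      Big p (update s r m) s' → Big (.loop r p) s' s'' → Big (.loop r p) s s''

theorem Big.cast {p : Prog} {s t t' : Regs} (h : Big p s t) (e : t = t') : Big p s t' := e ▸ h

/-- `clear r` sets register `r` to zero. -/
def clear (r : ℕ) : Prog := .loop r .skip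

theorem big_clear (r : ℕ) (s : Regs) : Big (clear r) s (update s r 0) := by
  generalize hn : s r = n
  induction n generalizing s with
  | zero =>
    refine (Big.loopZ hn).cast ?_
    rw [← hn, update_eq_self]
  | succ n ih =>
    refine Big.loopS n hn (Big.skip _) ?_
    have := ih (update s r n) (by simp)
    rw [update_idem] at this
    exact this

/-- `move x y` adds `x` to `y` and clears `x`. -/
def move (x y : ℕ) : Prog := .loop x (.inc y)

theorem big_move {x y : ℕ} (hxy : x ≠ y) (s : Regs) :
    Big (move x y) s (update (update s y (s y + s x)) x 0) := by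
  generalize hn : s x = n
  induction n generalizing s with
  | zero =>
    refine (Big.loopZ hn).cast ?_
    funext r
    by_cases h1 : r = x
    · subst h1; simp [hn]
    · by_cases h2 : r = y
      · subst h2; simp [h1]
      · simp [h1, h2]
  | succ n ih =>
    refine Big.loopS n hn (Big.inc _ _) ?_
    refine (ih _ (by simp [hxy])).cast ?_
    funext r
    by_cases h1 : r = x
    · subst h1; simp
    · by_cases h2 : r = y
      · subst h2; simp [h1]; omega
      · simp [h1, h2]

/-- `move2 x y z` adds `x` to both `y` and `z` and clears `x`. -/
def move2 (x y z : ℕ) : Prog := .loop x (.seq (.inc y) (.inc z))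

theorem big_move2 {x y z : ℕ} (hxy : x ≠ y) (hxz : x ≠ z) (hyz : y ≠ z) (s : Regs) :
    Big (move2 x y z) s (update (update (update s y (s y + s x)) z (s z + s x)) x 0) := by
  generalize hn : s x = n
  induction n generalizing s with
  | zero =>
    refine (Big.loopZ hn).cast ?_
    funext r
    by_cases h1 : r = x
    · subst h1; simp [hn]
    · by_cases h2 : r = z
      · subst h2; simp [h1]
      · by_cases h3 : r = y
        · subst h3; simp [h1, h2]
        · simp [h1, h2, h3]
  | succ n ih =>
    refine Big.loopS n hn (Big.seq (Big.inc _ _) (Big.inc _ _)) ?_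
    refine (ih _ (by simp [hxy, hxz])).cast ?_
    funext r
    by_cases h1 : r = x
    · subst h1; simp
    · by_cases h2 : r = z
      · subst h2; simp [h1, hyz.symm]; omega
      · by_cases h3 : r = y
        · subst h3; simp [h1, h2]; omega
        · simp [h1, h2, h3]

/-- `copy x y t` copies `x` to `y`, using the zero register `t`. -/
def copy (x y t : ℕ) : Prog := .seq (clear y) (.seq (move2 x y t) (move t x))

theorem big_copy {x y t : ℕ} (hxy : x ≠ y) (hxt : x ≠ t) (hyt : y ≠ t) (s : Regs) (ht : s t = 0) :
    Big (copy x y t) s (update s y (s x)) := by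
  refine Big.seq (big_clear _ _) (Big.seq (big_move2 hxy hxt hyt _)
    ((big_move hxt.symm _).cast ?_))
  funext r
  by_cases h1 : r = x
  · subst h1; simp [hxy, hxt, ht, hyt.symm, update_of_ne hxt.symm]
  · by_cases h2 : r = t
    · subst h2; simp [ht, hyt.symm]
    · by_cases h3 : r = y
      · subst h3; simp [h1, h2, hxy]
      · simp [h1, h2, h3]

/-- Sequential composition of a list of programs. -/
def seqList : List Prog → Prog
  | [] => .skip
  | p :: l => .seq p (seqList l)

theorem big_seqList (l : List Prog) (st : ℕ → Regs)
    (h : ∀ j (hj : j < l.length), Big l[j] (st j) (st (j + 1))) :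
    Big (seqList l) (st 0) (st l.length) := by
  induction l generalizing st with
  | nil => exact Big.skip _
  | cons p l ih =>
    refine Big.seq (h 0 (by simp)) ?_
    refine ih (fun j => st (j + 1)) ?_
    intro j hj
    exact h (j + 1) (by simpa using hj)

/-- `Computes f`: the function `f` of `n` arguments is computed by while programs, uniformly in the
choice of input registers, output register and free registers. -/
def Computes {n : ℕ} (f : List.Vector ℕ n → ℕ) : Prop :=
  ∀ (ι : Fin n → ℕ) (o m : ℕ), (∀ i, ι i < m) → o < m → (∀ i, ι i ≠ o) →
    ∃ P : Prog, ∀ s : Regs, (∀ r, m ≤ r → s r = 0) →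
      Big P s (update s o (f (List.Vector.ofFn fun i => s (ι i))))

theorem computes_zero : Computes (n := 0) (fun _ => 0) := by
  intro ι o m _ _ _
  exact ⟨clear o, fun s _ => big_clear o s⟩

theorem computes_succ : Computes (n := 1) (fun v => Nat.succ v.head) := by
  intro ι o m hι ho hio
  refine ⟨.seq (copy (ι 0) o m) (.inc o), fun s hs => ?_⟩
  have h1 := hι 0
  refine Big.seq (big_copy (hio 0) (by omega) (by omega) s (hs m le_rfl)) ?_
  refine (Big.inc _ _).cast ?_
  simp [List.Vector.head_ofFn]

theorem computes_get {n : ℕ} (i : Fin n) : Computes (fun v => v.get i) := by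
  intro ι o m hι ho hio
  refine ⟨copy (ι i) o m, fun s hs => ?_⟩
  have h1 := hι i
  refine (big_copy (hio i) (by omega) (by omega) s (hs m le_rfl)).cast ?_
  simp

theorem computes_comp {m' n : ℕ} {f : List.Vector ℕ m' → ℕ} (g : Fin m' → List.Vector ℕ n → ℕ)
    (hf : Computes f) (hg : ∀ i, Computes (g i)) :
    Computes (fun a => f (List.Vector.ofFn fun i => g i a)) := by
  intro ι o m hι ho hio
  -- programs for the `g i`
  have hG : ∀ i : Fin m', ∃ P : Prog, ∀ s : Regs, (∀ r, m + m' ≤ r → s r = 0) →
      Big P s (update s (m + i) (g i (List.Vector.ofFn fun j => s (ι j)))) := by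
    intro i
    refine hg i ι (m + i) (m + m') (fun j => ?_) (by omega) (fun j => ?_)
    · have := hι j; omega
    · have := hι j; omega
  choose PG hPG using hG
  obtain ⟨PF, hPF⟩ := hf (fun i => m + i) o (m + m') (fun i => by omega) (by omega)
    (fun i => by omega)
  refine ⟨.seq (seqList (List.ofFn PG)) (.seq PF (seqList (List.ofFn fun i : Fin m' =>
    clear (m + i)))), fun s hs => ?_⟩
  set v : List.Vector ℕ n := List.Vector.ofFn fun j => s (ι j) with hv
  -- values
  set gv : ℕ → ℕ := fun i => if h : i < m' then g ⟨i, h⟩ v else 0 with hgv
  set st : ℕ → Regs := fun j r => if m ≤ r ∧ r < m + j then gv (r - m) else s r with hst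
  have hst0 : st 0 = s := by
    funext r
    simp only [hst]
    rw [if_neg]; omega
  have hstι : ∀ j i, st j (ι i) = s (ι i) := by
    intro j i
    have := hι i
    simp only [hst]
    rw [if_neg]; omega
  have step1 : Big (seqList (List.ofFn PG)) s (st m') := by
    have := big_seqList (List.ofFn PG) st ?_
    · simpa [hst0] using this
    · intro j hj
      have hj' : j < m' := by simpa using hj
      rw [List.getElem_ofFn]
      refine (hPG ⟨j, hj'⟩ (st j) ?_).cast ?_
      · intro r hr
        simp only [hst]
        rw [if_neg (by omega)]
        exact hs r (by omega)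
      · simp only [hstι]
        funext r
        by_cases h1 : r = m + j
        · subst h1
          have : m ≤ m + j ∧ m + j < m + (j + 1) := by omega
          simp only [hst, update_self, if_pos this]
          simp [hgv, hj', hv]
        · rw [update_of_ne (by simpa using h1)]
          simp only [hst]
          by_cases h2 : m ≤ r ∧ r < m + j
          · rw [if_pos h2, if_pos (by omega)]
          · rw [if_neg h2, if_neg (by omega)]
  have step2 : Big PF (st m') (update (st m') o (f (List.Vector.ofFn fun i => g i v))) := by
    refine (hPF (st m') ?_).cast ?_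
    · intro r hr
      simp only [hst]
      rw [if_neg (by omega)]
      exact hs r (by omega)
    · congr 1
      congr 1
      congr 1
      funext i
      have : m ≤ m + (i : ℕ) ∧ m + (i : ℕ) < m + m' := by omega
      simp only [hst, if_pos this]
      simp [hgv]
  refine Big.seq step1 (Big.seq step2 ?_)
  set st2 : ℕ → Regs := fun j => update (fun r => if m ≤ r ∧ r < m + j then 0 else st m' r) o
    (f (List.Vector.ofFn fun i => g i v)) with hst2
  have := big_seqList (List.ofFn fun i : Fin m' => clear (m + i)) st2 ?_
  · have e0 : st2 0 = update (st m') o (f (List.Vector.ofFn fun i => g i v)) := by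
      simp only [hst2]
      congr 1
      funext r
      rw [if_neg (by omega)]
    rw [e0] at this
    refine this.cast ?_
    simp only [hst2, List.length_ofFn]
    funext r
    by_cases h1 : r = o
    · subst h1; simp
    · rw [update_of_ne h1, update_of_ne h1]
      by_cases h2 : m ≤ r ∧ r < m + m'
      · rw [if_pos h2, hs r h2.1]
      · rw [if_neg h2]
        simp only [hst]
        rw [if_neg h2]
  · intro j hj
    have hj' : j < m' := by simpa using hj
    rw [List.getElem_ofFn]
    refine (big_clear _ _).cast ?_
    simp only [hst2]
    funext r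
    by_cases h1 : r = m + j
    · subst h1
      rw [update_self, update_of_ne (by omega), if_pos (by omega)]
    · rw [update_of_ne h1]
      by_cases h2 : r = o
      · subst h2; simp
      · rw [update_of_ne h2, update_of_ne h2]
        by_cases h3 : m ≤ r ∧ r < m + j
        · rw [if_pos h3, if_pos (by omega)]
        · rw [if_neg h3, if_neg (by omega)]

theorem computes_prec {n : ℕ} {f : List.Vector ℕ n → ℕ} {g : List.Vector ℕ (n + 2) → ℕ}
    (hf : Computes f) (hg : Computes g) :
    Computes (fun v : List.Vector ℕ (n + 1) =>
      v.head.rec (f v.tail) fun y IH => g (y ::ᵥ IH ::ᵥ v.tail)) := by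
  intro ι o m hι ho hio
  obtain ⟨PF, hPF⟩ := hf (fun i => ι i.succ) (m + 2) (m + 4)
    (fun i => by have := hι i.succ; omega) (by omega) (fun i => by have := hι i.succ; omega)
  obtain ⟨PG, hPG⟩ := hg (Fin.cons (m + 1) (Fin.cons (m + 2) (fun i => ι i.succ))) (m + 3) (m + 4)
    (by
      intro i
      refine Fin.cases ?_ (fun i => Fin.cases ?_ (fun i => ?_) i) i
      · simp
      · simp
      · have := hι i.succ
        simp only [Fin.cons_succ]; omega) (by omega)
    (by
      intro i
      refine Fin.cases ?_ (fun i => Fin.cases ?_ (fun i => ?_) i) i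
      · simp
      · simp
      · have := hι i.succ
        simp only [Fin.cons_succ]; omega)
  refine ⟨.seq (copy (ι 0) m (m + 3)) (.seq PF (.seq (.loop m
    (.seq PG (.seq (clear (m + 2)) (.seq (move (m + 3) (m + 2)) (.inc (m + 1))))))
    (.seq (clear o) (.seq (move (m + 2) o) (clear (m + 1)))))), fun s hs => ?_⟩
  have hι0 := hι 0
  set t : List.Vector ℕ n := List.Vector.ofFn fun i : Fin n => s (ι i.succ) with ht
  set R : ℕ → ℕ := fun x => Nat.rec (f t) (fun y IH => g (y ::ᵥ IH ::ᵥ t)) x with hR
  have hm0 : s m = 0 := hs m le_rfl
  have hm1 : s (m + 1) = 0 := hs _ (by omega)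
  have hm2 : s (m + 2) = 0 := hs _ (by omega)
  have hm3 : s (m + 3) = 0 := hs _ (by omega)
  -- state family: counter value `c`, stage `j`
  set st : ℕ → ℕ → Regs := fun c j r => if r = m then c else if r = m + 1 then j else
    if r = m + 2 then R j else s r with hst
  have hstι : ∀ c j (i : Fin (n + 1)), st c j (ι i) = s (ι i) := by
    intro c j i
    have := hι i
    simp only [hst]
    rw [if_neg (by omega), if_neg (by omega), if_neg (by omega)]
  have hsthigh : ∀ c j r, m + 3 ≤ r → st c j r = 0 := by
    intro c j r hr
    simp only [hst]
    rw [if_neg (by omega), if_neg (by omega), if_neg (by omega)]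
    exact hs r (by omega)
  have e1 : Big (copy (ι 0) m (m + 3)) s (update s m (s (ι 0))) :=
    big_copy (by omega) (by omega) (by omega) s hm3
  have e2 : Big PF (update s m (s (ι 0))) (st (s (ι 0)) 0) := by
    refine (hPF _ ?_).cast ?_
    · intro r hr
      rw [update_of_ne (by omega)]
      exact hs r (by omega)
    · funext r
      by_cases h1 : r = m + 2
      · subst h1
        rw [update_self]
        simp only [hst]
        rw [if_neg (by omega), if_neg (by omega), ite_true]
        simp only [hR, ht]
        congr 1
        congr 1
        funext i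
        have := hι i.succ
        rw [update_of_ne (by omega)]
      · rw [update_of_ne h1]
        by_cases h2 : r = m
        · subst h2; simp [hst]
        · rw [update_of_ne h2]
          simp only [hst]
          rw [if_neg h2, if_neg h1]
          by_cases h3 : r = m + 1
          · subst h3; rw [if_pos rfl, hm1]
          · rw [if_neg h3]
  have e3 : ∀ c j, Big (.loop m (.seq PG (.seq (clear (m + 2)) (.seq (move (m + 3) (m + 2))
      (.inc (m + 1)))))) (st c j) (st 0 (j + c)) := by
    intro c
    induction c with
    | zero =>
      intro j
      exact Big.loopZ (by simp [hst])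
    | succ c ih =>
      intro j
      refine Big.loopS c (by simp [hst]) ?_ ((ih (j + 1)).cast (by congr 1; omega))
      have u : update (st (c + 1) j) m c = st c j := by
        funext r
        by_cases h2 : r = m
        · subst h2; simp [hst]
        · rw [update_of_ne h2]; simp only [hst]; rw [if_neg h2, if_neg h2]
      rw [u]
      have g1 : Big PG (st c j) (update (st c j) (m + 3) (R (j + 1))) := by
        refine (hPG _ (fun r hr => hsthigh c j r (by omega))).cast ?_
        congr 1
        simp only [hR]
        congr 1
        ext i
        rw [List.Vector.get_ofFn]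
        refine Fin.cases ?_ (fun i => Fin.cases ?_ (fun i => ?_) i) i
        · simp [hst]
        · rw [Fin.cons_succ, Fin.cons_zero, List.Vector.get_cons_succ, List.Vector.get_cons_zero]
          simp [hst, hR]
        · simp [hstι, ht]
      refine Big.seq g1 (Big.seq (big_clear _ _) (Big.seq (big_move (by omega) _)
        ((Big.inc _ _).cast ?_)))
      funext r
      by_cases h1 : r = m
      · subst h1
        simp [hst]
      · by_cases h2 : r = m + 1
        · subst h2
          simp [hst]
        · by_cases h3 : r = m + 2
          · subst h3
            simp [hst]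
          · by_cases h4 : r = m + 3
            · subst h4
              simp [hst, hm3]
            · simp [hst, h1, h2, h3, h4]
  refine Big.seq e1 (Big.seq e2 (Big.seq (e3 _ 0) (Big.seq (big_clear _ _) (Big.seq
    (big_move (by omega) _) ((big_clear _ _).cast ?_)))))
  have hh : (List.Vector.ofFn fun i => s (ι i)).head = s (ι 0) := by
    rw [List.Vector.head_ofFn]
  have htl : (List.Vector.ofFn fun i => s (ι i)).tail = t := by
    rw [List.Vector.tail_ofFn]
  have hres : (fun v : List.Vector ℕ (n + 1) => (Nat.rec (f v.tail)
      (fun y IH => g (y ::ᵥ IH ::ᵥ v.tail)) v.head : ℕ))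
      (List.Vector.ofFn fun i => s (ι i)) = R (s (ι 0)) := by
    simp only [hh, htl, hR]
  rw [hres]
  funext r
  by_cases h1 : r = m + 1
  · subst h1
    simp [hm1, show m + 1 ≠ o by omega]
  · by_cases h2 : r = m + 2
    · subst h2
      simp [hm2, show m + 2 ≠ o by omega]
    · by_cases h3 : r = o
      · subst h3
        simp [h1, h2, hst, show m + 2 ≠ r by omega]
      · by_cases h4 : r = m
        · subst h4
          simp [h3, hst, hm0]
        · simp [h1, h2, h3, h4, hst]

/-- Every primitive recursive function is computed by a while program. -/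
theorem computes_primrec' {n : ℕ} {f : List.Vector ℕ n → ℕ} (hf : Nat.Primrec' f) :
    Computes f := by
  induction hf with
  | zero => exact computes_zero
  | succ => exact computes_succ
  | get i => exact computes_get i
  | comp g _ _ ihf ihg => exact computes_comp g ihf ihg
  | prec _ _ ihf ihg => exact computes_prec ihf ihg

end Pool.Agent.H83
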